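import Mathlib

/-!
Deterministic part: truncation of an unbounded natural-valued sequence by a coboundary, and
passage to real-valued sequences.
-/

set_option autoImplicit false

namespace Pool.Agent.Helper396

open Filter Topology

/-- the overflow with window `K` -/
def vv (M K : ℕ) (u : ℕ → ℕ) (i : ℕ) : ℕ :=
  (Finset.range (K + 1)).sup fun k => (∑ j ∈ Finset.range k, u (i + j)) - M * k

/-- truncated sequence with time stamp `s` -/
def gg (M : ℕ) (a : ℕ → ℕ → ℕ) (s i : ℕ) : ℕ := min M (a s i + vv M s (a s) (i + 1))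

theorem le_vv {M K : ℕ} {u : ℕ → ℕ} {i k : ℕ} (hk : k ≤ K) :
    (∑ j ∈ Finset.range k, u (i + j)) - M * k ≤ vv M K u i := by
  unfold vv
  exact Finset.le_sup (f := fun k => (∑ j ∈ Finset.range k, u (i + j)) - M * k)
    (Finset.mem_range.2 (by omega))

theorem vv_le {M K : ℕ} {u : ℕ → ℕ} {i C : ℕ}
    (h : ∀ k ≤ K, (∑ j ∈ Finset.range k, u (i + j)) - M * k ≤ C) : vv M K u i ≤ C := by
  unfold vv
  exact Finset.sup_le fun k hk => h k (by have := Finset.mem_range.1 hk; omega)

theorem vv_att (M K : ℕ) (u : ℕ → ℕ) (i : ℕ) :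
    ∃ k ≤ K, vv M K u i = (∑ j ∈ Finset.range k, u (i + j)) - M * k := by
  obtain ⟨k, hk, h⟩ := Finset.exists_mem_eq_sup (Finset.range (K + 1)) ⟨0, by simp⟩
    (fun k => (∑ j ∈ Finset.range k, u (i + j)) - M * k)
  exact ⟨k, by have := Finset.mem_range.1 hk; omega, h⟩

theorem vv_mono_K {M K K' : ℕ} {u : ℕ → ℕ} {i : ℕ} (h : K ≤ K') : vv M K u i ≤ vv M K' u i :=
  vv_le fun _ hk => le_vv (hk.trans h)

theorem vv_mono_u {M K : ℕ} {u u' : ℕ → ℕ} {i : ℕ} (h : ∀ j, u j ≤ u' j) :
    vv M K u i ≤ vv M K u' i := by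
  refine vv_le fun k hk => le_trans ?_ (le_vv hk)
  exact Nat.sub_le_sub_right (Finset.sum_le_sum fun j _ => h _) _

theorem vv_congr {M K : ℕ} {u u' : ℕ → ℕ} {i : ℕ} (h : ∀ j < K, u (i + j) = u' (i + j)) :
    vv M K u i = vv M K u' i := by
  unfold vv
  refine Finset.sup_congr rfl fun k hk => ?_
  have hk := Finset.mem_range.1 hk
  congr 1
  refine Finset.sum_congr rfl fun j hj => h j ?_
  have := Finset.mem_range.1 hj
  omega

theorem vv_succ (M K : ℕ) (u : ℕ → ℕ) (i : ℕ) :
    vv M (K + 1) u i = (u i + vv M K u (i + 1)) - M := by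
  have hsum : ∀ k, ∑ j ∈ Finset.range (k + 1), u (i + j)
      = u i + ∑ j ∈ Finset.range k, u (i + 1 + j) := by
    intro k
    rw [Finset.sum_range_succ']
    rw [add_comm]
    congr 1
    refine Finset.sum_congr rfl fun j _ => ?_
    congr 1; ring
  apply le_antisymm
  · refine vv_le fun k hk => ?_
    cases k with
    | zero => simp
    | succ k =>
      rw [hsum]
      have := le_vv (M := M) (K := K) (u := u) (i := i + 1) (k := k) (by omega)
      have e : M * (k + 1) = M * k + M := by ring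
      omega
  · obtain ⟨k, hk, h⟩ := vv_att M K u (i + 1)
    rw [h]
    have h1 := le_vv (M := M) (K := K + 1) (u := u) (i := i) (k := k + 1) (by omega)
    have h2 := le_vv (M := M) (K := K + 1) (u := u) (i := i) (k := 1) (by omega)
    rw [hsum] at h1
    have e : M * (k + 1) = M * k + M := by ring
    simp at h2
    omega

theorem vv_le_sum (M K : ℕ) (u : ℕ → ℕ) (i : ℕ) :
    vv M K u i ≤ ∑ j ∈ Finset.range K, u (i + j) := by
  refine vv_le fun k hk => (Nat.sub_le _ _).trans ?_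
  exact Finset.sum_le_sum_of_subset (Finset.range_mono hk)

theorem gg_add (M : ℕ) (a : ℕ → ℕ → ℕ) (s i : ℕ) :
    gg M a s i + vv M (s + 1) (a s) i = a s i + vv M s (a s) (i + 1) := by
  unfold gg
  rw [vv_succ]
  omega

theorem gg_le (M : ℕ) (a : ℕ → ℕ → ℕ) (s i : ℕ) : gg M a s i ≤ M := min_le_left _ _

theorem gg_mono (M : ℕ) {a : ℕ → ℕ → ℕ} (ha : ∀ i, Monotone fun s => a s i) (i : ℕ) :
    Monotone fun s => gg M a s i := by
  intro s s' h
  have h1 : ∀ j, a s j ≤ a s' j := fun j => ha j h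
  have h2 : vv M s (a s) (i + 1) ≤ vv M s' (a s') (i + 1) :=
    (vv_mono_u h1).trans (vv_mono_K h)
  have h3 := h1 i
  simp only [gg]
  omega

theorem sum_gg_le (M : ℕ) (a : ℕ → ℕ → ℕ) (s m : ℕ) :
    ∑ i ∈ Finset.range m, gg M a s i + vv M s (a s) 0
      ≤ ∑ i ∈ Finset.range m, a s i + vv M s (a s) m := by
  induction m with
  | zero => simp
  | succ m ih =>
    rw [Finset.sum_range_succ, Finset.sum_range_succ]
    have h1 := gg_add M a s m
    have h2 := vv_mono_K (M := M) (K := s) (K' := s + 1) (u := a s) (i := m) (by omega)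
    omega

theorem sum_gg_le2 (M : ℕ) (a : ℕ → ℕ → ℕ) (n : ℕ) :
    ∑ i ∈ Finset.range n, gg M a n i ≤ ∑ i ∈ Finset.range (2 * n), a n i := by
  have h1 := sum_gg_le M a n n
  have h2 := vv_le_sum M n (a n) n
  have h3 : ∑ i ∈ Finset.range (2 * n), a n i
      = ∑ i ∈ Finset.range n, a n i + ∑ j ∈ Finset.range n, a n (n + j) := by
    rw [two_mul, Finset.sum_range_add]
  omega

section

variable {a : ℕ → ℕ → ℕ} {b : ℕ → ℕ}

theorem a_le_b (ha : ∀ i, Monotone fun s => a s i) (hb : ∀ i, ∃ s, a s i = b i)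
    (hle : ∀ s i, a s i ≤ b i) (n : ℕ) : ∃ s0, ∀ s ≥ s0, ∀ i < n, a s i = b i := by
  induction n with
  | zero => exact ⟨0, fun s _ i hi => absurd hi (Nat.not_lt_zero _)⟩
  | succ n ih =>
    obtain ⟨s0, h0⟩ := ih
    obtain ⟨s1, h1⟩ := hb n
    refine ⟨max s0 s1, fun s hs i hi => ?_⟩
    by_cases hin : i < n
    · exact h0 s ((le_max_left _ _).trans hs) i hin
    · have : i = n := by omega
      subst this
      refine le_antisymm (hle _ _) ?_
      rw [← h1]
      exact ha i ((le_max_right _ _).trans hs)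

theorem freq_gg (M : ℕ) (hle : ∀ s i, a s i ≤ b i) {α : ℕ}
    (h : ∃ᶠ m in atTop, ∑ i ∈ Finset.range m, b i ≤ α * m) :
    ∃ᶠ n in atTop, ∑ i ∈ Finset.range n, gg M a n i ≤ 3 * α * n := by
  rw [frequently_atTop] at h ⊢
  intro N
  obtain ⟨m, hm, hs⟩ := h (2 * N + 2)
  refine ⟨m / 2, by omega, ?_⟩
  calc ∑ i ∈ Finset.range (m / 2), gg M a (m / 2) i
      ≤ ∑ i ∈ Finset.range (2 * (m / 2)), a (m / 2) i := sum_gg_le2 _ _ _
    _ ≤ ∑ i ∈ Finset.range (2 * (m / 2)), b i := Finset.sum_le_sum fun i _ => hle _ _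
    _ ≤ ∑ i ∈ Finset.range m, b i :=
        Finset.sum_le_sum_of_subset (Finset.range_mono (by omega))
    _ ≤ α * m := hs
    _ ≤ α * (3 * (m / 2)) := Nat.mul_le_mul_left _ (by omega)
    _ = 3 * α * (m / 2) := by ring

end

/-- a bounded monotone sequence of naturals is eventually constant -/
theorem ev_const {u : ℕ → ℕ} (hu : Monotone u) {C : ℕ} (hC : ∀ s, u s ≤ C) :
    ∃ v, (∀ s, u s ≤ v) ∧ ∃ s0, ∀ s ≥ s0, u s = v := by
  classical
  have hex : ∃ v, ∀ s, u s ≤ v := ⟨C, hC⟩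
  refine ⟨Nat.find hex, Nat.find_spec hex, ?_⟩
  have : ∃ s0, Nat.find hex ≤ u s0 := by
    by_contra hcon
    push Not at hcon
    have hpos : 0 < Nat.find hex := lt_of_le_of_lt (Nat.zero_le _) (hcon 0)
    have := Nat.find_min hex (m := Nat.find hex - 1) (by omega)
    exact this fun s => by have := hcon s; omega
  obtain ⟨s0, hs0⟩ := this
  exact ⟨s0, fun s hs => le_antisymm (Nat.find_spec hex s) (hs0.trans (hu hs))⟩

/-- not both: real-time averages often low and final averages often high -/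
def NB (g : ℕ → ℕ → ℕ) : Prop :=
  ∀ c α : ℕ, ¬ ((∃ᶠ n in atTop, c * ∑ i ∈ Finset.range n, g n i ≤ α * n) ∧
    (∃ᶠ n in atTop, ∃ s, (α + 2) * n ≤ c * ∑ i ∈ Finset.range n, g s i))

/-- the final values of a monotone family of sequences -/
structure Final (g : ℕ → ℕ → ℕ) (gf : ℕ → ℕ) : Prop where
  le : ∀ s i, g s i ≤ gf i
  ev : ∀ n, ∃ s0, ∀ s ≥ s0, ∀ i < n, g s i = gf i

theorem exists_final {g : ℕ → ℕ → ℕ} (hg : ∀ i, Monotone fun s => g s i) {M : ℕ}
    (hM : ∀ s i, g s i ≤ M) : ∃ gf, Final g gf := by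
  have h : ∀ i, ∃ v, (∀ s, g s i ≤ v) ∧ ∃ s0, ∀ s ≥ s0, g s i = v :=
    fun i => ev_const (hg i) (C := M) (fun s => hM s i)
  choose gf hle s0 hs0 using h
  refine ⟨gf, fun s i => hle i s, ?_⟩
  intro n
  refine ⟨(Finset.range n).sup s0, fun s hs i hi => hs0 i s ?_⟩
  exact (Finset.le_sup (f := s0) (Finset.mem_range.2 hi)).trans hs

/-- bounded case: averages of the final values converge -/
theorem bounded_conv {g : ℕ → ℕ → ℕ} {gf : ℕ → ℕ} (hF : Final g gf) {M : ℕ}
    (hM : ∀ i, gf i ≤ M) (hNB : NB g) :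
    ∃ H : ℝ, Tendsto (fun n : ℕ => (∑ i ∈ Finset.range n, (gf i : ℝ)) / n) atTop (𝓝 H) := by
  set A : ℕ → ℝ := fun n => (∑ i ∈ Finset.range n, (gf i : ℝ)) / n with hA
  have hA0 : ∀ n, 0 ≤ A n := fun n => by positivity
  have hAM : ∀ n, A n ≤ M := by
    intro n
    rcases Nat.eq_zero_or_pos n with rfl | hn
    · simp [hA]
    · have hn' : (0 : ℝ) < n := by exact_mod_cast hn
      rw [hA]
      simp only
      rw [div_le_iff₀ hn']
      calc ∑ i ∈ Finset.range n, (gf i : ℝ) ≤ ∑ i ∈ Finset.range n, (M : ℝ) :=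
            Finset.sum_le_sum fun i _ => by exact_mod_cast hM i
        _ = M * n := by simp [mul_comm]
  refine tendsto_of_no_upcrossings (s := Set.univ) dense_univ ?_ ?_ ?_
  · intro x _ y _ hxy ⟨h1, h2⟩
    have hx : 0 < x := by
      obtain ⟨n, hn⟩ := h1.exists
      exact lt_of_le_of_lt (hA0 n) hn
    obtain ⟨c, hc⟩ := exists_nat_gt (3 / (y - x))
    have hyx : 0 < y - x := by linarith
    have hc' : 3 < c * (y - x) := by
      rw [div_lt_iff₀ hyx] at hc
      exact hc
    have hcpos : (0 : ℝ) < c := by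
      by_contra hcon
      push Not at hcon
      nlinarith
    have hceil1 := Nat.le_ceil ((c : ℝ) * x)
    have hceil2 := Nat.ceil_lt_add_one (a := (c : ℝ) * x) (by positivity)
    refine hNB c ⌈(c : ℝ) * x⌉₊ ⟨?_, ?_⟩
    · refine (h1.and_eventually (eventually_gt_atTop 0)).mono ?_
      rintro n ⟨hn, hn0⟩
      have hn' : (0 : ℝ) < n := by exact_mod_cast hn0
      have h3 : ∑ i ∈ Finset.range n, (gf i : ℝ) < x * n := by
        have : A n < x := hn
        rw [hA] at this
        simp only at this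
        rwa [div_lt_iff₀ hn'] at this
      have h4 : (∑ i ∈ Finset.range n, (g n i : ℝ)) ≤ ∑ i ∈ Finset.range n, (gf i : ℝ) :=
        Finset.sum_le_sum fun i _ => by exact_mod_cast hF.le n i
      have h5 : (c : ℝ) * ∑ i ∈ Finset.range n, (g n i : ℝ) ≤ (⌈(c : ℝ) * x⌉₊ : ℝ) * n := by
        calc (c : ℝ) * ∑ i ∈ Finset.range n, (g n i : ℝ)
            ≤ c * (x * n) := mul_le_mul_of_nonneg_left (h4.trans h3.le) hcpos.le
          _ = c * x * n := by ring
          _ ≤ _ := mul_le_mul_of_nonneg_right hceil1 hn'.le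
      exact_mod_cast h5
    · refine (h2.and_eventually (eventually_gt_atTop 0)).mono ?_
      rintro n ⟨hn, hn0⟩
      have hn' : (0 : ℝ) < n := by exact_mod_cast hn0
      obtain ⟨s0, hs0⟩ := hF.ev n
      refine ⟨s0, ?_⟩
      have h3 : y * n < ∑ i ∈ Finset.range n, (gf i : ℝ) := by
        have : y < A n := hn
        rw [hA] at this
        simp only at this
        rwa [lt_div_iff₀ hn'] at this
      have h4 : (∑ i ∈ Finset.range n, (g s0 i : ℝ)) = ∑ i ∈ Finset.range n, (gf i : ℝ) :=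
        Finset.sum_congr rfl fun i hi => by
          rw [hs0 s0 le_rfl i (Finset.mem_range.1 hi)]
      have h5 : ((⌈(c : ℝ) * x⌉₊ : ℝ) + 2) * n ≤ (c : ℝ) * ∑ i ∈ Finset.range n, (g s0 i : ℝ) := by
        rw [h4]
        calc ((⌈(c : ℝ) * x⌉₊ : ℝ) + 2) * n ≤ (c * y) * n := by
              refine mul_le_mul_of_nonneg_right ?_ hn'.le
              nlinarith
          _ = c * (y * n) := by ring
          _ ≤ _ := mul_le_mul_of_nonneg_left h3.le hcpos.le
      exact_mod_cast h5
  · exact isBoundedUnder_of ⟨M, hAM⟩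
  · exact isBoundedUnder_of ⟨0, hA0⟩

/-- if the real-time averages are often at most `β`, the limit of the final ones is too -/
theorem bounded_lim_le {g : ℕ → ℕ → ℕ} {gf : ℕ → ℕ} (hF : Final g gf) (hNB : NB g) {β : ℕ}
    {H : ℝ} (hH : Tendsto (fun n : ℕ => (∑ i ∈ Finset.range n, (gf i : ℝ)) / n) atTop (𝓝 H))
    (h : ∃ᶠ n in atTop, ∑ i ∈ Finset.range n, g n i ≤ β * n) : H < β + 1 := by
  have h1 := hNB 4 (4 * β)
  have h2 : ∃ᶠ n in atTop, 4 * ∑ i ∈ Finset.range n, g n i ≤ 4 * β * n := by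
    refine h.mono fun n hn => ?_
    calc 4 * ∑ i ∈ Finset.range n, g n i ≤ 4 * (β * n) := Nat.mul_le_mul_left _ hn
      _ = 4 * β * n := by ring
  have h3 : ¬ ∃ᶠ n in atTop, ∃ s, (4 * β + 2) * n ≤ 4 * ∑ i ∈ Finset.range n, g s i :=
    fun hc => h1 ⟨h2, hc⟩
  rw [not_frequently] at h3
  have h4 : ∀ᶠ n : ℕ in atTop, (∑ i ∈ Finset.range n, (gf i : ℝ)) / n ≤ β + 1 / 2 := by
    filter_upwards [h3, eventually_gt_atTop 0] with n hn hn0
    have hn' : (0 : ℝ) < n := by exact_mod_cast hn0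
    obtain ⟨s0, hs0⟩ := hF.ev n
    push Not at hn
    have h5 := hn s0
    have h6 : ∑ i ∈ Finset.range n, g s0 i = ∑ i ∈ Finset.range n, gf i :=
      Finset.sum_congr rfl fun i hi => hs0 s0 le_rfl i (Finset.mem_range.1 hi)
    rw [h6] at h5
    rw [div_le_iff₀ hn']
    have h7 : 4 * (∑ i ∈ Finset.range n, (gf i : ℝ)) < (4 * β + 2) * n := by exact_mod_cast h5
    linarith
  have := le_of_tendsto hH h4
  linarith

/-- sublinear error bound from convergence of averages -/
theorem conv_bound {u : ℕ → ℝ} {H : ℝ} (h : Tendsto (fun n : ℕ => u n / n) atTop (𝓝 H))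
    {ε : ℝ} (hε : 0 < ε) : ∃ C : ℝ, 0 ≤ C ∧ ∀ k : ℕ, |u k - H * k| ≤ ε * k + C := by
  rw [Metric.tendsto_atTop] at h
  obtain ⟨N, hN⟩ := h ε hε
  refine ⟨∑ k ∈ Finset.range (N + 1), |u k - H * k|, by positivity, fun k => ?_⟩
  by_cases hk : k < N + 1
  · have := Finset.single_le_sum (f := fun k : ℕ => |u k - H * k|)
      (fun _ _ => abs_nonneg _) (Finset.mem_range.2 hk)
    have h2 : 0 ≤ ε * (k : ℝ) := by positivity
    linarith
  · have hk1 : N ≤ k := by omega
    have hk0 : (0 : ℝ) < k := by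
      have : 0 < k := by omega
      exact_mod_cast this
    have h1 := hN k hk1
    rw [Real.dist_eq] at h1
    have h2 : |u k - H * k| ≤ ε * k := by
      have : u k - H * k = (u k / k - H) * k := by field_simp
      rw [this, abs_mul, abs_of_pos hk0]
      exact mul_le_mul_of_nonneg_right h1.le hk0.le
    have h3 : 0 ≤ ∑ k ∈ Finset.range (N + 1), |u k - H * k| := by positivity
    linarith

/-- convergence from the truncated sequence -/
theorem unbounded_of_bounded {b gf V : ℕ → ℕ} {M : ℕ} (hrec : ∀ i, gf i + V i = b i + V (i + 1))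
    (hsmall : ∀ i, gf i < M → V (i + 1) ≤ M) (hgM : ∀ i, gf i ≤ M) {H : ℝ} (hHM : H < M)
    (hH : Tendsto (fun n : ℕ => (∑ i ∈ Finset.range n, (gf i : ℝ)) / n) atTop (𝓝 H)) :
    Tendsto (fun n : ℕ => (∑ i ∈ Finset.range n, (b i : ℝ)) / n) atTop (𝓝 H) := by
  set u : ℕ → ℝ := fun n => ∑ i ∈ Finset.range n, (gf i : ℝ) with hu
  have htel : ∀ n, (∑ i ∈ Finset.range n, (b i : ℝ)) = u n + V 0 - V n := by
    intro n
    induction n with
    | zero => simp [hu]
    | succ n ih =>
      have h1 : (gf n : ℝ) + V n = b n + V (n + 1) := by exact_mod_cast hrec n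
      simp only [hu, Finset.sum_range_succ] at ih ⊢
      linarith
  have hclaim : ∀ n, ∃ s ≤ n, u s + M * ((n : ℝ) - s) ≤ u n ∧ (V s : ℝ) ≤ V 0 + M := by
    intro n
    induction n with
    | zero => exact ⟨0, le_rfl, by simp, by simp⟩
    | succ n ih =>
      by_cases hg : gf n < M
      · refine ⟨n + 1, le_rfl, by simp, ?_⟩
        have h1 : (V (n + 1) : ℝ) ≤ M := by exact_mod_cast hsmall n hg
        have h2 : (0 : ℝ) ≤ V 0 := by positivity
        linarith
      · obtain ⟨s, hs, h1, h2⟩ := ih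
        refine ⟨s, by omega, ?_, h2⟩
        have h3 : (gf n : ℝ) = M := by
          have := hgM n
          have : gf n = M := by omega
          exact_mod_cast this
        simp only [hu, Finset.sum_range_succ] at h1 ⊢
        rw [h3]
        push_cast
        linarith
  have hVstep : ∀ s k, (V (s + k) : ℝ) ≤ V s + M * k := by
    intro s k
    induction k with
    | zero => simp
    | succ k ih =>
      have h1 := hrec (s + k)
      have h2 := hgM (s + k)
      have h3 : V (s + (k + 1)) ≤ V (s + k) + M := by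
        rw [← add_assoc]; omega
      have h4 : (V (s + (k + 1)) : ℝ) ≤ V (s + k) + M := by exact_mod_cast h3
      push_cast
      linarith
  have hV : Tendsto (fun n : ℕ => (V n : ℝ) / n) atTop (𝓝 0) := by
    rw [Metric.tendsto_atTop]
    intro δ hδ
    set κ : ℝ := M - H with hκ
    have hκ0 : 0 < κ := by simp only [hκ]; linarith
    set ε : ℝ := δ * κ / (4 * (M + 1)) with hε
    have hM1 : (0 : ℝ) < M + 1 := by positivity
    have hε0 : 0 < ε := by positivity
    obtain ⟨C, hC0, hC⟩ := conv_bound hH hε0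
    set C' : ℝ := V 0 + M + M * (2 * C) / κ with hC'
    obtain ⟨N, hN⟩ := exists_nat_gt (2 * C' / δ)
    refine ⟨N + 1, fun n hn => ?_⟩
    have hn0 : (0 : ℝ) < n := by
      have : 0 < n := by omega
      exact_mod_cast this
    have hNn : (N : ℝ) ≤ n := by exact_mod_cast (by omega : N ≤ n)
    rw [Real.dist_eq, sub_zero, abs_of_nonneg (by positivity), div_lt_iff₀ hn0]
    obtain ⟨s, hs, h1, h2⟩ := hclaim n
    obtain ⟨k, rfl⟩ : ∃ k, n = s + k := ⟨n - s, by omega⟩
    have h3 := hVstep s k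
    have h4 := (abs_le.1 (hC (s + k))).2
    have h5 := (abs_le.1 (hC s)).1
    have h6 : u (s + k) = ∑ i ∈ Finset.range (s + k), (gf i : ℝ) := rfl
    have h7 : κ * k ≤ 2 * ε * ((s + k : ℕ) : ℝ) + 2 * C := by
      have hk : (((s + k : ℕ) : ℝ)) - s = k := by push_cast; ring
      rw [hk] at h1
      have hsk : ε * (s : ℝ) ≤ ε * ((s + k : ℕ) : ℝ) := by
        refine mul_le_mul_of_nonneg_left ?_ hε0.le
        exact_mod_cast Nat.le_add_right s k
      have : ((s + k : ℕ) : ℝ) = s + k := by push_cast; ring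
      rw [this] at h4 hsk ⊢
      simp only [hκ]
      nlinarith
    have h8 : (k : ℝ) ≤ (2 * ε * ((s + k : ℕ) : ℝ) + 2 * C) / κ := by
      rw [le_div_iff₀ hκ0]; linarith
    have h9 : (V (s + k) : ℝ) ≤ C' + M * (2 * ε) / κ * ((s + k : ℕ) : ℝ) := by
      calc (V (s + k) : ℝ) ≤ V s + M * k := h3
        _ ≤ (V 0 + M) + M * ((2 * ε * ((s + k : ℕ) : ℝ) + 2 * C) / κ) :=
            add_le_add h2 (mul_le_mul_of_nonneg_left h8 (by positivity))
        _ = _ := by simp only [hC']; ring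
    have h10 : M * (2 * ε) / κ ≤ δ / 2 := by
      rw [div_le_iff₀ hκ0, hε]
      have : (M : ℝ) * (2 * (δ * κ / (4 * (M + 1)))) = (M / (M + 1)) * (δ / 2 * κ) := by
        field_simp
        ring
      rw [this]
      have h11 : (M : ℝ) / (M + 1) ≤ 1 := by
        rw [div_le_one hM1]; linarith
      have h12 : 0 ≤ δ / 2 * κ := by positivity
      nlinarith
    have h13 : C' < δ / 2 * ((s + k : ℕ) : ℝ) := by
      rw [div_lt_iff₀ hδ] at hN
      have : (N : ℝ) * δ ≤ ((s + k : ℕ) : ℝ) * δ := mul_le_mul_of_nonneg_right hNn hδ.le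
      linarith
    have h14 : M * (2 * ε) / κ * ((s + k : ℕ) : ℝ) ≤ δ / 2 * ((s + k : ℕ) : ℝ) :=
      mul_le_mul_of_nonneg_right h10 hn0.le
    linarith
  have h0 : Tendsto (fun n : ℕ => (V 0 : ℝ) / n) atTop (𝓝 0) :=
    tendsto_const_div_atTop_nhds_zero_nat _
  have := (hH.add h0).sub hV
  simp only [add_zero, sub_zero] at this
  refine this.congr fun n => ?_
  rw [htel n]
  simp only [hu]
  ring

/-- existence of the final overflow -/
theorem exists_V {a : ℕ → ℕ → ℕ} {b : ℕ → ℕ} {M : ℕ} (hfin : Final a b)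
    {gf : ℕ → ℕ} (hF : Final (gg M a) gf) (hfreq : ∃ᶠ i in atTop, gf i < M) :
    ∃ V : ℕ → ℕ, (∀ i, gf i + V i = b i + V (i + 1)) ∧ (∀ i, gf i < M → V (i + 1) ≤ M) := by
  classical
  -- bounded overflow
  have hstep1 : ∀ i, gf i < M → ∀ K, vv M K b (i + 1) ≤ M := by
    intro i hi K
    obtain ⟨s0, hs0⟩ := hfin.ev (i + 1 + K)
    have h1 := hF.le (max s0 K) i
    have h2 : vv M K b (i + 1) ≤ vv M (max s0 K) (a (max s0 K)) (i + 1) := by
      have : vv M K b (i + 1) = vv M K (a (max s0 K)) (i + 1) :=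
        vv_congr fun j hj => (hs0 _ (le_max_left _ _) _ (by omega)).symm
      rw [this]
      exact vv_mono_K (le_max_right _ _)
    unfold gg at h1
    omega
  have hB : ∀ i, ∃ C, ∀ K, vv M K b i ≤ C := by
    have hdown : ∀ i, (∃ C, ∀ K, vv M K b (i + 1) ≤ C) → ∃ C, ∀ K, vv M K b i ≤ C := by
      rintro i ⟨C, hC⟩
      refine ⟨b i + C, fun K => ?_⟩
      have h1 := vv_mono_K (M := M) (K := K) (K' := K + 1) (u := b) (i := i) (by omega)
      rw [vv_succ] at h1
      have := hC K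
      omega
    intro i
    rw [frequently_atTop] at hfreq
    obtain ⟨j, hj, hlt⟩ := hfreq i
    have hj1 : ∃ C, ∀ K, vv M K b (j + 1) ≤ C := ⟨M, hstep1 j hlt⟩
    have : ∀ d, ∀ j', j' = i + d → (∃ C, ∀ K, vv M K b j' ≤ C) → ∃ C, ∀ K, vv M K b i ≤ C := by
      intro d
      induction d with
      | zero => intro j' hj' h; simpa [hj'] using h
      | succ d ih =>
        intro j' hj' h
        refine ih (i + d) rfl (hdown _ ?_)
        rw [hj'] at h
        simpa [add_assoc] using h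
    exact this (j + 1 - i) (j + 1) (by omega) hj1
  have hV : ∀ i, ∃ v, (∀ K, vv M K b i ≤ v) ∧ ∃ K0, ∀ K ≥ K0, vv M K b i = v := by
    intro i
    obtain ⟨C, hC⟩ := hB i
    exact ev_const (fun K K' h => vv_mono_K h) hC
  choose V hVle hVev using hV
  refine ⟨V, ?_, ?_⟩
  · intro i
    obtain ⟨K0, hK0⟩ := hVev i
    obtain ⟨K1, hK1⟩ := hVev (i + 1)
    set K := max K0 K1 with hK
    have h1 : vv M (K + 1) b i = V i := hK0 _ (by omega)
    have h2 : vv M K b (i + 1) = V (i + 1) := hK1 _ (by omega)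
    rw [vv_succ, h2] at h1
    -- the final value of gg
    obtain ⟨s0, hs0⟩ := hfin.ev (i + 1 + K + 1)
    obtain ⟨s1, hs1⟩ := hF.ev (i + 1)
    set s := max (max s0 s1) K with hs
    have h3 : gg M a s i = gf i := hs1 s (by omega) i (by omega)
    have h4 : a s i = b i := hs0 s (by omega) i (by omega)
    have h5 : vv M s (a s) (i + 1) = V (i + 1) := by
      apply le_antisymm
      · exact (vv_mono_u (fun j => hfin.le s j)).trans (hVle _ _)
      · rw [← h2]
        have : vv M K b (i + 1) = vv M K (a s) (i + 1) :=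
          vv_congr fun j hj => (hs0 _ (by omega) _ (by omega)).symm
        rw [this]
        exact vv_mono_K (by omega)
    unfold gg at h3
    rw [h4, h5] at h3
    omega
  · intro i hi
    obtain ⟨K1, hK1⟩ := hVev (i + 1)
    rw [← hK1 K1 le_rfl]
    exact hstep1 i hi K1

/-- natural-valued case -/
theorem nat_main {a : ℕ → ℕ → ℕ} {b : ℕ → ℕ} (ha : ∀ i, Monotone fun s => a s i)
    (hfin : Final a b) (hNB : ∀ M, NB (gg M a)) :
    (∃ H : ℝ, Tendsto (fun n : ℕ => (∑ i ∈ Finset.range n, (b i : ℝ)) / n) atTop (𝓝 H)) ∨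
      Tendsto (fun n : ℕ => (∑ i ∈ Finset.range n, (b i : ℝ)) / n) atTop atTop := by
  by_cases hinf : Tendsto (fun n : ℕ => (∑ i ∈ Finset.range n, (b i : ℝ)) / n) atTop atTop
  · exact Or.inr hinf
  · left
    obtain ⟨α, hα⟩ : ∃ α : ℕ, ∃ᶠ m in atTop, ∑ i ∈ Finset.range m, b i ≤ α * m := by
      rw [tendsto_atTop] at hinf
      push Not at hinf
      obtain ⟨x, hx⟩ := hinf
      refine ⟨⌈x⌉₊, ?_⟩
      refine ((not_eventually.1 hx).and_eventually (eventually_gt_atTop 0)).mono ?_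
      rintro n ⟨hn, hn0⟩
      have hn' : (0 : ℝ) < n := by exact_mod_cast hn0
      push Not at hn
      rw [div_lt_iff₀ hn'] at hn
      have h1 : (∑ i ∈ Finset.range n, (b i : ℝ)) ≤ (⌈x⌉₊ : ℝ) * n :=
        hn.le.trans (mul_le_mul_of_nonneg_right (Nat.le_ceil x) hn'.le)
      exact_mod_cast h1
    set M := 3 * α + 1 with hM
    obtain ⟨gf, hF⟩ := exists_final (gg_mono M ha) (fun s i => gg_le M a s i)
    have hgM : ∀ i, gf i ≤ M := by
      intro i
      obtain ⟨s0, hs0⟩ := hF.ev (i + 1)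
      rw [← hs0 s0 le_rfl i (by omega)]
      exact gg_le _ _ _ _
    obtain ⟨H, hH⟩ := bounded_conv hF hgM (hNB M)
    have hlt : H < M := by
      have := bounded_lim_le hF (hNB M) hH (freq_gg M hfin.le hα)
      rw [hM]
      push_cast at this ⊢
      linarith
    have hfreq : ∃ᶠ i in atTop, gf i < M := by
      by_contra hcon
      rw [not_frequently, eventually_atTop] at hcon
      obtain ⟨N, hN⟩ := hcon
      have hge : ∀ᶠ n : ℕ in atTop,
          (M : ℝ) - (M : ℝ) * N / n ≤ (∑ i ∈ Finset.range n, (gf i : ℝ)) / n := by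
        filter_upwards [eventually_gt_atTop N] with n hn
        have hn' : (0 : ℝ) < n := by
          have : 0 < n := by omega
          exact_mod_cast this
        rw [le_div_iff₀ hn', sub_mul, div_mul_cancel₀ _ hn'.ne']
        have h1 : ∑ i ∈ Finset.range n, (gf i : ℝ)
            ≥ ∑ i ∈ Finset.Ico N n, (gf i : ℝ) := by
          rw [Finset.range_eq_Ico]
          refine Finset.sum_le_sum_of_subset_of_nonneg ?_ (fun _ _ _ => by positivity)
          exact Finset.Ico_subset_Ico (Nat.zero_le _) le_rfl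
        have h2 : ∑ i ∈ Finset.Ico N n, (gf i : ℝ) = M * ((n : ℝ) - N) := by
          have : ∀ i ∈ Finset.Ico N n, (gf i : ℝ) = M := by
            intro i hi
            have h3 := hN i (Finset.mem_Ico.1 hi).1
            have h4 := hgM i
            have : gf i = M := by omega
            exact_mod_cast this
          rw [Finset.sum_congr rfl this, Finset.sum_const, Nat.card_Ico, nsmul_eq_mul,
            Nat.cast_sub hn.le]
          ring
        rw [h2] at h1
        linarith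
      have hlim : Tendsto (fun n : ℕ => (M : ℝ) - (M : ℝ) * N / n) atTop (𝓝 (M - 0)) :=
        tendsto_const_nhds.sub (tendsto_const_div_atTop_nhds_zero_nat _)
      have := le_of_tendsto_of_tendsto hlim hH hge
      linarith
    obtain ⟨V, hV1, hV2⟩ := exists_V hfin hF hfreq
    exact ⟨H, unbounded_of_bounded hV1 hV2 hgM hlt hH⟩

/-- real-valued case -/
theorem real_main {x : ℕ → ℝ} {n0 : ℝ} {b : ℕ → ℕ → ℕ}
    (hb : ∀ D i : ℕ, |((D : ℝ) + 1) * (x i + n0) - b D i| ≤ 1)
    (h : ∀ D : ℕ,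
      (∃ H : ℝ, Tendsto (fun n : ℕ => (∑ i ∈ Finset.range n, (b D i : ℝ)) / n) atTop (𝓝 H)) ∨
      Tendsto (fun n : ℕ => (∑ i ∈ Finset.range n, (b D i : ℝ)) / n) atTop atTop) :
    (∃ H : ℝ, Tendsto (fun n : ℕ => (∑ i ∈ Finset.range n, x i) / n) atTop (𝓝 H)) ∨
      Tendsto (fun n : ℕ => (∑ i ∈ Finset.range n, x i) / n) atTop atTop := by
  set X : ℕ → ℝ := fun n => (∑ i ∈ Finset.range n, x i) / n with hX
  have key : ∀ D n : ℕ, 0 < n →
      |((D : ℝ) + 1) * (X n + n0) - (∑ i ∈ Finset.range n, (b D i : ℝ)) / n| ≤ 1 := by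
    intro D n hn
    have hn' : (0 : ℝ) < n := by exact_mod_cast hn
    have h1 : ((D : ℝ) + 1) * (X n + n0) - (∑ i ∈ Finset.range n, (b D i : ℝ)) / n
        = (∑ i ∈ Finset.range n, (((D : ℝ) + 1) * (x i + n0) - b D i)) / n := by
      rw [Finset.sum_sub_distrib, ← Finset.mul_sum, Finset.sum_add_distrib, Finset.sum_const,
        Finset.card_range, nsmul_eq_mul]
      simp only [hX]
      field_simp
    rw [h1, abs_div, abs_of_pos hn', div_le_one hn']
    calc |∑ i ∈ Finset.range n, (((D : ℝ) + 1) * (x i + n0) - b D i)|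
        ≤ ∑ i ∈ Finset.range n, |((D : ℝ) + 1) * (x i + n0) - b D i| :=
          Finset.abs_sum_le_sum_abs _ _
      _ ≤ ∑ i ∈ Finset.range n, (1 : ℝ) := Finset.sum_le_sum fun i _ => hb D i
      _ = n := by simp
  by_cases hinf : ∃ D : ℕ,
      Tendsto (fun n : ℕ => (∑ i ∈ Finset.range n, (b D i : ℝ)) / n) atTop atTop
  · right
    obtain ⟨D, hD⟩ := hinf
    have hD1 : (0 : ℝ) < (D : ℝ) + 1 := by positivity
    have h1 : Tendsto (fun n : ℕ =>
        ((∑ i ∈ Finset.range n, (b D i : ℝ)) / n - 1) / ((D : ℝ) + 1) - n0) atTop atTop := by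
      apply tendsto_atTop_add_const_right
      apply Tendsto.atTop_div_const hD1
      exact tendsto_atTop_add_const_right _ _ hD
    refine tendsto_atTop_mono' _ ?_ h1
    filter_upwards [eventually_gt_atTop 0] with n hn
    have h2 := (abs_le.1 (key D n hn)).1
    have : ((∑ i ∈ Finset.range n, (b D i : ℝ)) / n - 1) / ((D : ℝ) + 1) ≤ X n + n0 := by
      rw [div_le_iff₀ hD1]
      linarith
    linarith
  · left
    push Not at hinf
    have hconv : ∀ D : ℕ, ∃ H : ℝ,
        Tendsto (fun n : ℕ => (∑ i ∈ Finset.range n, (b D i : ℝ)) / n) atTop (𝓝 H) :=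
      fun D => (h D).resolve_right (hinf D)
    apply cauchySeq_tendsto_of_complete
    rw [Metric.cauchySeq_iff]
    intro ε hε
    obtain ⟨D, hD⟩ := exists_nat_gt (4 / ε)
    have hD1 : (0 : ℝ) < (D : ℝ) + 1 := by positivity
    obtain ⟨H, hH⟩ := hconv D
    rw [Metric.tendsto_atTop] at hH
    obtain ⟨N, hN⟩ := hH 1 one_pos
    have hclose : ∀ n ≥ N + 1, |((D : ℝ) + 1) * (X n + n0) - H| < 2 := by
      intro n hn
      have h1 := abs_le.1 (key D n (by omega))
      have h2 := hN n (by omega)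
      rw [Real.dist_eq] at h2
      have h3 := abs_lt.1 h2
      rw [abs_lt]
      constructor <;> linarith [h1.1, h1.2, h3.1, h3.2]
    refine ⟨N + 1, fun m hm n hn => ?_⟩
    have h1 := abs_lt.1 (hclose m hm)
    have h2 := abs_lt.1 (hclose n hn)
    rw [Real.dist_eq]
    have h3 : ((D : ℝ) + 1) * |X m - X n| < 4 := by
      have h5 : |((D : ℝ) + 1) * (X m - X n)| < 4 := by
        rw [abs_lt]
        constructor <;> nlinarith [h1.1, h1.2, h2.1, h2.2]
      rwa [abs_mul, abs_of_pos hD1] at h5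
    have h4 : 4 < ε * ((D : ℝ) + 1) := by
      rw [div_lt_iff₀ hε] at hD
      nlinarith
    by_contra hcon
    push Not at hcon
    nlinarith

end Pool.Agent.Helper396
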