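import Pool.Agent.Helper396.Upcross
import Pool.Agent.Helper396.Det

/-!
Computability part: the oscillation sets are uniformly effectively open.
-/

set_option autoImplicit false

namespace Pool.Agent.Helper396

open Nat.Partrec (Code)

section general

variable {α β σ γ : Type*} [Primcodable α] [Primcodable β] [Primcodable σ] [Primcodable γ]

theorem foldl_eq_rec {β σ : Type*} (h : σ → β → σ) (s : σ) (l : List β) (n : ℕ) :
    (Nat.rec (motive := fun _ => σ) s
      (fun n IH => Option.casesOn (motive := fun _ => σ) (l[n]?) IH (fun b => h IH b)) n : σ)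
      = (l.take n).foldl h s := by
  induction n with
  | zero => simp
  | succ n ih =>
    simp only [ih]
    rw [List.take_add_one, List.foldl_append]
    cases hl : l[n]? with
    | none => simp
    | some b => simp

theorem list_foldl {f : α → List β} {g : α → σ} {h : α → σ × β → σ} (hf : Computable f)
    (hg : Computable g) (hh : Computable₂ h) :
    Computable (fun a => (f a).foldl (fun s b => h a (s, b)) (g a)) := by
  have h1 : Computable₂ (fun (a : α) (p : ℕ × σ) =>
      (Option.casesOn (motive := fun _ => σ) ((f a)[p.1]?) p.2 (fun b => h a (p.2, b)) : σ)) := by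
    refine Computable.option_casesOn (o := fun q : α × (ℕ × σ) => (f q.1)[q.2.1]?)
      (f := fun q => q.2.2) (g := fun q b => h q.1 (q.2.2, b)) ?_ ?_ ?_
    · exact Computable.list_getElem?.comp (hf.comp Computable.fst) (Computable.fst.comp Computable.snd)
    · exact Computable.snd.comp Computable.snd
    · exact hh.comp (Computable.fst.comp Computable.fst)
        ((Computable.snd.comp (Computable.snd.comp Computable.fst)).pair Computable.snd)
  refine (Computable.nat_rec (Computable.list_length.comp hf) hg h1).of_eq fun a => ?_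
  have := foldl_eq_rec (fun s b => h a (s, b)) (g a) (f a) (f a).length
  rw [List.take_length] at this
  exact this

theorem list_any {f : α → List β} {p : α → β → Bool} (hf : Computable f) (hp : Computable₂ p) :
    Computable (fun a => (f a).any (p a)) := by
  have hh : Computable₂ (fun (a : α) (q : Bool × β) => q.1 || p a q.2) :=
    (Primrec.or.to_comp).comp (Computable.fst.comp Computable.snd)
      (hp.comp Computable.fst (Computable.snd.comp Computable.snd))
  refine (list_foldl hf (Computable.const false) hh).of_eq fun a => ?_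
  have : ∀ (l : List β) (s : Bool), l.foldl (fun s b => s || p a b) s = (s || l.any (p a)) := by
    intro l
    induction l with
    | nil => intro s; simp
    | cons b l ih => intro s; simp [ih, Bool.or_assoc]
  simpa using this (f a) false

theorem list_map {f : α → List β} {g : α → β → σ} (hf : Computable f) (hg : Computable₂ g) :
    Computable (fun a => (f a).map (g a)) := by
  have hh : Computable₂ (fun (a : α) (q : List σ × β) => q.1 ++ [g a q.2]) :=
    Computable.list_concat.comp (Computable.fst.comp Computable.snd)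
      (hg.comp Computable.fst (Computable.snd.comp Computable.snd))
  refine (list_foldl hf (Computable.const []) hh).of_eq fun a => ?_
  have : ∀ (l : List β) (s : List σ), l.foldl (fun s b => s ++ [g a b]) s = s ++ l.map (g a) := by
    intro l
    induction l with
    | nil => intro s; simp
    | cons b l ih => intro s; simp [ih]
  simpa using this (f a) []

theorem comp_of {f : β → σ} (hf : Computable f) {g : α → β} (hg : Computable g) {h : α → σ}
    (e : ∀ a, f (g a) = h a) : Computable h := (hf.comp hg).of_eq e

theorem c_lt : Computable₂ (fun a b : ℕ => decide (a < b)) :=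
  Primrec₂.to_comp (Primrec.nat_lt.decide)

theorem c_le : Computable₂ (fun a b : ℕ => decide (a ≤ b)) :=
  Primrec₂.to_comp (Primrec.nat_le.decide)

theorem c_eq : Computable₂ (fun a b : ℕ => decide (a = b)) :=
  Primrec₂.to_comp (Primrec.eq.decide)

theorem c_and : Computable₂ and := Primrec.and.to_comp

theorem c_mul : Computable₂ (fun a b : ℕ => a * b) := Primrec.nat_mul.to_comp

theorem c_add : Computable₂ (fun a b : ℕ => a + b) := Primrec.nat_add.to_comp

theorem c_sub : Computable₂ (fun a b : ℕ => a - b) := Primrec.nat_sub.to_comp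

theorem c_max : Computable₂ (fun a b : ℕ => max a b) := Primrec.nat_max.to_comp

theorem c_min : Computable₂ (fun a b : ℕ => min a b) := Primrec.nat_min.to_comp

theorem comp_sum {f : α → ℕ} {g : α → ℕ → ℕ} (hf : Computable f) (hg : Computable₂ g) :
    Computable (fun a => ∑ j ∈ Finset.range (f a), g a j) := by
  have hh : Computable₂ (fun (a : α) (p : ℕ × ℕ) => p.2 + g a p.1) :=
    c_add.comp (Computable.snd.comp Computable.snd)
      (hg.comp Computable.fst (Computable.fst.comp Computable.snd))
  refine (Computable.nat_rec hf (Computable.const 0) hh).of_eq fun a => ?_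
  generalize f a = n
  induction n with
  | zero => simp
  | succ n ih =>
    rw [Finset.sum_range_succ]
    simp only
    rw [ih]

theorem comp_sup {f : α → ℕ} {g : α → ℕ → ℕ} (hf : Computable f) (hg : Computable₂ g) :
    Computable (fun a => (Finset.range (f a)).sup (g a)) := by
  have hh : Computable₂ (fun (a : α) (p : ℕ × ℕ) => max (g a p.1) p.2) :=
    c_max.comp (hg.comp Computable.fst (Computable.fst.comp Computable.snd))
      (Computable.snd.comp Computable.snd)
  refine (Computable.nat_rec hf (Computable.const 0) hh).of_eq fun a => ?_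
  generalize f a = n
  induction n with
  | zero => simp
  | succ n ih =>
    rw [Finset.range_add_one, Finset.sup_insert]
    simp only
    rw [ih]

theorem re_of_exists (c : α → ℕ → Bool) (hc : Computable₂ c) :
    REPred (fun a => ∃ k, c a k = true) := by
  have h : Partrec (fun a => (Nat.rfind (fun k => Part.some (c a k))).map (fun _ => ())) :=
    (Partrec.rfind hc.partrec₂).map ((Computable.const ()).to₂)
  refine h.of_eq fun a => ?_
  have hdom : (Nat.rfind (fun k => (Part.some (c a k) : Part Bool))).Dom ↔ ∃ k, c a k = true := by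
    refine Nat.rfind_dom.trans ?_
    constructor
    · rintro ⟨n, hn, _⟩
      exact ⟨n, (Part.mem_some_iff.1 hn).symm⟩
    · rintro ⟨n, hn⟩
      exact ⟨n, Part.mem_some_iff.2 hn.symm, fun _ => trivial⟩
  apply Part.ext'
  · constructor
    · intro hd
      exact ⟨hdom.1 hd, trivial⟩
    · rintro ⟨hd, _⟩
      exact hdom.2 hd
  · intro _ _; rfl

/-- halting within `k` steps -/
def ev (c : Code) (k n : ℕ) : Bool := (Code.evaln k c n).isSome

theorem comp_ev (c : Code) : Computable₂ (ev c) := by
  have h1 : Primrec (fun p : ℕ × ℕ => Code.evaln p.1 c p.2) :=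
    Code.primrec_evaln.comp ((Primrec.fst.pair (Primrec.const c)).pair Primrec.snd)
  exact (Primrec.option_isSome.comp h1).to_comp

theorem ev_mono {c : Code} {k k' n : ℕ} (h : k ≤ k') (he : ev c k n = true) :
    ev c k' n = true := by
  unfold ev at *
  obtain ⟨v, hv⟩ := Option.isSome_iff_exists.1 he
  have := Code.evaln_mono h (Option.mem_def.2 hv)
  rw [Option.mem_def.1 this]
  rfl

/-- encoding of the enumerated objects -/
def enc (p : (ℕ × ℕ × ℕ) × List Bool) : ℕ := Encodable.encode p

theorem comp_enc : Computable enc := Computable.encode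

theorem code_of_re {p : α → Prop} (hp : REPred p) :
    ∃ c : Code, ∀ a, p a ↔ ∃ k, ev c k (Encodable.encode a) = true := by
  obtain ⟨c, hc⟩ := Code.exists_code.1 hp
  refine ⟨c, fun a => ?_⟩
  have h1 : p a ↔ (Code.eval c (Encodable.encode a)).Dom := by
    rw [hc]
    simp [Part.assert]
  rw [h1, Part.dom_iff_mem]
  constructor
  · rintro ⟨y, hy⟩
    obtain ⟨k, hk⟩ := Code.evaln_complete.1 hy
    exact ⟨k, by unfold ev; rw [Option.mem_def.1 hk]; rfl⟩
  · rintro ⟨k, hk⟩
    obtain ⟨y, hy⟩ := Option.isSome_iff_exists.1 hk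
    exact ⟨y, Code.evaln_sound hy⟩

end general

/-- the left shift -/
def sh (y : ℕ → Bool) : ℕ → Bool := fun n => y (n + 1)

/-- extension of a string by zeros -/
def ext (x : List Bool) : ℕ → Bool := fun i => x.getD i false

/-- initial segments -/
def pre (y : ℕ → Bool) (n : ℕ) : List Bool := (List.range n).map y

theorem sh_iter (i : ℕ) (y : ℕ → Bool) (n : ℕ) : (sh^[i] y) n = y (n + i) := by
  induction i generalizing y with
  | zero => rfl
  | succ i ih =>
    rw [Function.iterate_succ_apply, ih]
    show y (n + i + 1) = y (n + (i + 1))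
    rfl

theorem sh_ext (i : ℕ) (x : List Bool) : sh^[i] (ext x) = ext (x.drop i) := by
  funext n
  rw [sh_iter]
  simp [ext, List.getD_eq_getElem?_getD, List.getElem?_drop, add_comm]

theorem pre_length (y : ℕ → Bool) (n : ℕ) : (pre y n).length = n := by simp [pre]

theorem pre_congr {y y' : ℕ → Bool} {n : ℕ} (h : ∀ i < n, y i = y' i) : pre y n = pre y' n := by
  unfold pre
  exact List.map_congr_left fun i hi => h i (List.mem_range.1 hi)

theorem ext_pre {y : ℕ → Bool} {n i : ℕ} (hi : i < n) : ext (pre y n) i = y i := by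
  simp [ext, pre, hi, List.getD_eq_getElem?_getD]

theorem ext_of_cyl {y : ℕ → Bool} {x : List Bool} (h : pre y x.length = x) {i : ℕ}
    (hi : i < x.length) : ext x i = y i := by
  rw [← ext_pre (y := y) hi, h]

theorem comp_pre_ext : Computable₂ (fun (x : List Bool) (n : ℕ) => pre (ext x) n) := by
  have h1 : Computable₂ (fun (p : List Bool × ℕ) (i : ℕ) => (p.1)[i]?.getD false) := by
    refine Computable.option_getD ?_ (Computable.const false)
    exact Computable.list_getElem?.comp (Computable.fst.comp Computable.fst) Computable.snd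
  have h2 := list_map (f := fun p : List Bool × ℕ => List.range p.2)
    (Primrec.list_range.to_comp.comp Computable.snd) h1
  refine h2.of_eq fun p => ?_
  unfold pre ext
  refine List.map_congr_left fun i _ => ?_
  rw [List.getD_eq_getElem?_getD]

theorem comp_drop : Computable₂ (fun (x : List Bool) (n : ℕ) => x.drop n) := by
  have hh : Computable₂ (fun (_ : List Bool × ℕ) (p : ℕ × List Bool) => p.2.tail) :=
    (Primrec.list_tail.to_comp.comp (Computable.snd.comp Computable.snd))
  refine (Computable.nat_rec (f := fun p : List Bool × ℕ => p.2) Computable.snd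
    (Computable.fst) hh).of_eq fun p => ?_
  obtain ⟨x, n⟩ := p
  simp only
  induction n with
  | zero => simp
  | succ n ih =>
    simp only
    rw [ih, List.tail_drop]

section family

variable (c : Code) (A C : ℕ)

/-- acceptance of level `j` at stage `m` -/
def acc (m j : ℕ) (y : ℕ → Bool) : Bool :=
  (List.range (m + 1)).any fun l =>
    ev c m (enc ((j, A, C), pre y l))

/-- approximation of the level function -/
def FF (m : ℕ) (y : ℕ → Bool) : ℕ :=
  ∑ j ∈ Finset.range m, if acc c A C m (j + 1) y = true then 1 else 0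

/-- truncated family -/
def GG (M s : ℕ) (y : ℕ → Bool) : ℕ := gg M (fun s' i => FF c A C s' (sh^[i] y)) s 0

theorem acc_mono {m m' j : ℕ} (h : m ≤ m') {y : ℕ → Bool} (ha : acc c A C m j y = true) :
    acc c A C m' j y = true := by
  unfold acc at *
  rw [List.any_eq_true] at ha ⊢
  obtain ⟨l, hl, hs⟩ := ha
  exact ⟨l, by rw [List.mem_range] at hl ⊢; omega, ev_mono h hs⟩

theorem acc_congr {m j : ℕ} {y y' : ℕ → Bool} (h : ∀ i < m, y i = y' i) :
    acc c A C m j y = acc c A C m j y' := by
  unfold acc
  rw [Bool.eq_iff_iff, List.any_eq_true, List.any_eq_true]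
  constructor
  · rintro ⟨l, hl, hs⟩
    have hl' := List.mem_range.1 hl
    exact ⟨l, hl, by rw [← pre_congr (n := l) fun i hi => h i (by omega)]; exact hs⟩
  · rintro ⟨l, hl, hs⟩
    have hl' := List.mem_range.1 hl
    exact ⟨l, hl, by rw [pre_congr (n := l) fun i hi => h i (by omega)]; exact hs⟩

theorem FF_mono (y : ℕ → Bool) : Monotone fun m => FF c A C m y := by
  intro m m' h
  simp only [FF]
  calc ∑ j ∈ Finset.range m, (if acc c A C m (j + 1) y = true then 1 else 0)
      ≤ ∑ j ∈ Finset.range m, (if acc c A C m' (j + 1) y = true then 1 else 0) := by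
        refine Finset.sum_le_sum fun j _ => ?_
        by_cases h1 : acc c A C m (j + 1) y = true
        · rw [if_pos h1, if_pos (acc_mono c A C h h1)]
        · rw [if_neg h1]; exact Nat.zero_le _
    _ ≤ _ := Finset.sum_le_sum_of_subset (Finset.range_mono h)

theorem FF_congr {m : ℕ} {y y' : ℕ → Bool} (h : ∀ i < m, y i = y' i) :
    FF c A C m y = FF c A C m y' := by
  unfold FF
  refine Finset.sum_congr rfl fun j _ => ?_
  rw [acc_congr c A C h]

theorem GG_le (M s : ℕ) (y : ℕ → Bool) : GG c A C M s y ≤ M := gg_le _ _ _ _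

theorem GG_mono (M : ℕ) (y : ℕ → Bool) : Monotone fun s => GG c A C M s y :=
  gg_mono M (a := fun s i => FF c A C s (sh^[i] y)) (fun _ => FF_mono c A C _) 0

theorem GG_congr {M s : ℕ} {y y' : ℕ → Bool} (h : ∀ i < 2 * s + 1, y i = y' i) :
    GG c A C M s y = GG c A C M s y' := by
  have key : ∀ i ≤ s, FF c A C s (sh^[i] y) = FF c A C s (sh^[i] y') := by
    intro i hi
    refine FF_congr c A C fun k hk => ?_
    rw [sh_iter, sh_iter]
    exact h _ (by omega)
  unfold GG gg
  have h0 := key 0 (Nat.zero_le _)
  have h1 : vv M s (fun i => FF c A C s (sh^[i] y)) (0 + 1)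
      = vv M s (fun i => FF c A C s (sh^[i] y')) (0 + 1) :=
    vv_congr fun j hj => key _ (by omega)
  simp only at h0 h1 ⊢
  rw [h0, h1]

theorem GG_iter (M s i : ℕ) (y : ℕ → Bool) :
    GG c A C M s (sh^[i] y) = gg M (fun s i => FF c A C s (sh^[i] y)) s i := by
  have e : ∀ k, sh^[k] (sh^[i] y) = sh^[k + i] y := fun k =>
    (Function.iterate_add_apply sh k i y).symm
  have h1 : vv M s (fun k => FF c A C s (sh^[k] (sh^[i] y))) (0 + 1)
      = vv M s (fun k => FF c A C s (sh^[k] y)) (i + 1) := by
    unfold vv
    refine Finset.sup_congr rfl fun k _ => ?_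
    congr 1
    refine Finset.sum_congr rfl fun j _ => ?_
    simp only
    rw [e]
    congr 2
    ring
  unfold GG gg
  simp only
  rw [h1]
  rfl

theorem comp_acc : Computable (fun p : (ℕ × ℕ) × List Bool =>
    acc c A C p.1.1 p.1.2 (ext p.2)) := by
  unfold acc
  refine list_any (f := fun p : (ℕ × ℕ) × List Bool => List.range (p.1.1 + 1)) ?_ ?_
  · exact Primrec.list_range.to_comp.comp
      (Computable.succ.comp (Computable.fst.comp Computable.fst))
  · have hm : Computable (fun q : ((ℕ × ℕ) × List Bool) × ℕ => q.1.1.1) :=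
      Computable.fst.comp (Computable.fst.comp Computable.fst)
    have hj : Computable (fun q : ((ℕ × ℕ) × List Bool) × ℕ => q.1.1.2) :=
      Computable.snd.comp (Computable.fst.comp Computable.fst)
    have hx : Computable (fun q : ((ℕ × ℕ) × List Bool) × ℕ => q.1.2) :=
      Computable.snd.comp Computable.fst
    have hp : Computable (fun q : ((ℕ × ℕ) × List Bool) × ℕ => pre (ext q.1.2) q.2) :=
      comp_pre_ext.comp hx Computable.snd
    have he : Computable (fun q : ((ℕ × ℕ) × List Bool) × ℕ =>
        enc ((q.1.1.2, A, C), pre (ext q.1.2) q.2)) :=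
      comp_enc.comp ((hj.pair (Computable.const (A, C))).pair hp)
    exact (comp_ev c).comp hm he

theorem comp_FF : Computable (fun p : ℕ × List Bool => FF c A C p.1 (ext p.2)) := by
  unfold FF
  refine comp_sum (f := fun p : ℕ × List Bool => p.1) Computable.fst ?_
  have h0 : Computable (fun q : (ℕ × List Bool) × ℕ =>
      (((q.1.1, q.2 + 1), q.1.2) : (ℕ × ℕ) × List Bool)) :=
    ((Computable.fst.comp Computable.fst).pair
      (Computable.succ.comp Computable.snd)).pair (Computable.snd.comp Computable.fst)
  have h1 : Computable (fun q : (ℕ × List Bool) × ℕ =>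
      acc c A C q.1.1 (q.2 + 1) (ext q.1.2)) :=
    comp_of (comp_acc c A C) h0 fun _ => rfl
  refine (Computable.cond h1 (Computable.const 1) (Computable.const 0)).of_eq fun q => ?_
  cases h : acc c A C q.1.1 (q.2 + 1) (ext q.1.2) <;> simp [h]

theorem comp_GG (M : ℕ) : Computable (fun p : ℕ × List Bool => GG c A C M p.1 (ext p.2)) := by
  have hF : Computable (fun q : (((ℕ × List Bool) × ℕ) × ℕ) =>
      FF c A C q.1.1.1 (sh^[0 + 1 + q.2] (ext q.1.1.2))) := by
    have h0 : Computable (fun q : (((ℕ × List Bool) × ℕ) × ℕ) => q.1.1.2.drop (0 + 1 + q.2)) :=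
      comp_drop.comp (Computable.snd.comp (Computable.fst.comp Computable.fst))
        (c_add.comp (Computable.const (0 + 1)) Computable.snd)
    have h2 : Computable (fun q : (((ℕ × List Bool) × ℕ) × ℕ) =>
        ((q.1.1.1, q.1.1.2.drop (0 + 1 + q.2)) : ℕ × List Bool)) :=
      (Computable.fst.comp (Computable.fst.comp Computable.fst)).pair h0
    refine comp_of (comp_FF c A C) h2 fun q => ?_
    rw [sh_ext]
  have hv : Computable (fun p : ℕ × List Bool =>
      vv M p.1 (fun i => FF c A C p.1 (sh^[i] (ext p.2))) (0 + 1)) := by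
    unfold vv
    refine comp_sup (f := fun p : ℕ × List Bool => p.1 + 1)
      (Computable.succ.comp Computable.fst) ?_
    refine c_sub.comp ?_ (c_mul.comp (Computable.const M) Computable.snd)
    exact comp_sum (f := fun q : (ℕ × List Bool) × ℕ => q.2)
      (g := fun q j => FF c A C q.1.1 (sh^[0 + 1 + j] (ext q.1.2))) Computable.snd hF
  have h := c_min.comp (Computable.const (α := ℕ × List Bool) M) (c_add.comp (comp_FF c A C) hv)
  exact h

end family

/-- `W` tuples -/
abbrev Tup := ℕ × ℕ × ℕ × ℕ × ℕ

/-- one step of the witness check -/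
def stepb (a B : ℕ) (S : ℕ → ℕ → ℕ) (L : ℕ) (st : Bool × ℕ) (t : Tup) : Bool × ℕ :=
  (st.1 &&
    ((decide (st.2 ≤ t.1) && (decide (t.1 < t.2.1) && (decide (t.2.1 < t.2.2.1) &&
      (decide (t.2.2.1 < t.2.2.2.1) && (decide (t.2.2.2.1 ≤ t.2.2.2.2) &&
        decide (t.2.2.2.2 ≤ L)))))) &&
    (decide ((a + 2) * t.1 ≤ S t.1 t.2.1) && (decide (S t.2.1 t.2.1 ≤ a * t.2.1) &&
      (decide (B * t.2.1 < t.2.2.1) && (decide (S t.2.2.1 t.2.2.1 ≤ a * t.2.2.1) &&
        decide ((a + 2) * t.2.2.2.1 ≤ S t.2.2.2.1 t.2.2.2.2)))))),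
   t.2.2.2.2 + 1)

theorem stepb_spec (a B : ℕ) (S : ℕ → ℕ → ℕ) (L : ℕ) :
    ∀ (w : List Tup) (ok : Bool) (lo : ℕ),
      (w.foldl (stepb a B S L) (ok, lo)).1 = true ↔ ok = true ∧ Wit a B S lo L w := by
  intro w
  induction w with
  | nil => intro ok lo; simp [Wit]
  | cons t w ih =>
    intro ok lo
    obtain ⟨l, m, m', n, r⟩ := t
    rw [List.foldl_cons]
    have : stepb a B S L (ok, lo) (l, m, m', n, r)
        = ((stepb a B S L (ok, lo) (l, m, m', n, r)).1, r + 1) := rfl
    rw [this, ih]
    simp only [stepb, Wit, Bool.and_eq_true, decide_eq_true_eq]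
    tauto

theorem comp_chk {G : ℕ → (ℕ → Bool) → ℕ}
    (hG : Computable (fun p : ℕ × List Bool => G p.1 (ext p.2))) (a B : ℕ) :
    Computable (fun p : List Bool × List Tup =>
      (p.2.foldl (stepb a B (SS sh G (ext p.1)) (p.1.length / 3)) (true, 0)).1) := by
  -- the sums
  have hS : Computable (fun q : List Bool × (ℕ × ℕ) => SS sh G (ext q.1) q.2.1 q.2.2) := by
    unfold SS
    refine comp_sum (f := fun q : List Bool × (ℕ × ℕ) => q.2.1)
      (Computable.fst.comp Computable.snd) ?_
    have h0 : Computable (fun q : (List Bool × (ℕ × ℕ)) × ℕ => q.1.1.drop q.2) :=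
      comp_drop.comp (Computable.fst.comp Computable.fst) Computable.snd
    have h2 : Computable (fun q : (List Bool × (ℕ × ℕ)) × ℕ =>
        ((q.1.2.2, q.1.1.drop q.2) : ℕ × List Bool)) :=
      (Computable.snd.comp (Computable.snd.comp Computable.fst)).pair h0
    refine comp_of hG h2 fun q => ?_
    simp only
    rw [sh_ext]
  refine Computable.fst.comp ?_
  have hh : Computable₂ (fun (p : List Bool × List Tup) (q : (Bool × ℕ) × Tup) =>
      stepb a B (SS sh G (ext p.1)) (p.1.length / 3) q.1 q.2) := by
    -- projections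
    have hx : Computable (fun q : (List Bool × List Tup) × ((Bool × ℕ) × Tup) => q.1.1) :=
      Computable.fst.comp Computable.fst
    have hok : Computable (fun q : (List Bool × List Tup) × ((Bool × ℕ) × Tup) => q.2.1.1) :=
      Computable.fst.comp (Computable.fst.comp Computable.snd)
    have hlo : Computable (fun q : (List Bool × List Tup) × ((Bool × ℕ) × Tup) => q.2.1.2) :=
      Computable.snd.comp (Computable.fst.comp Computable.snd)
    have h1 : Computable (fun q : (List Bool × List Tup) × ((Bool × ℕ) × Tup) => q.2.2.1) :=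
      Computable.fst.comp (Computable.snd.comp Computable.snd)
    have h2' : Computable (fun q : (List Bool × List Tup) × ((Bool × ℕ) × Tup) => q.2.2.2) :=
      Computable.snd.comp (Computable.snd.comp Computable.snd)
    have h2 : Computable (fun q : (List Bool × List Tup) × ((Bool × ℕ) × Tup) => q.2.2.2.1) :=
      Computable.fst.comp h2'
    have h3' : Computable (fun q : (List Bool × List Tup) × ((Bool × ℕ) × Tup) => q.2.2.2.2) :=
      Computable.snd.comp h2'
    have h3 : Computable (fun q : (List Bool × List Tup) × ((Bool × ℕ) × Tup) =>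
        q.2.2.2.2.1) := Computable.fst.comp h3'
    have h4' : Computable (fun q : (List Bool × List Tup) × ((Bool × ℕ) × Tup) =>
        q.2.2.2.2.2) := Computable.snd.comp h3'
    have h4 : Computable (fun q : (List Bool × List Tup) × ((Bool × ℕ) × Tup) =>
        q.2.2.2.2.2.1) := Computable.fst.comp h4'
    have h5 : Computable (fun q : (List Bool × List Tup) × ((Bool × ℕ) × Tup) =>
        q.2.2.2.2.2.2) := Computable.snd.comp h4'
    have hL : Computable (fun q : (List Bool × List Tup) × ((Bool × ℕ) × Tup) =>
        q.1.1.length / 3) :=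
      (Primrec.nat_div.to_comp).comp (Computable.list_length.comp hx) (Computable.const 3)
    have hSS : ∀ {u v : (List Bool × List Tup) × ((Bool × ℕ) × Tup) → ℕ}, Computable u →
        Computable v → Computable (fun q => SS sh G (ext q.1.1) (u q) (v q)) := by
      intro u v hu hv
      exact comp_of hS (hx.pair (hu.pair hv)) fun _ => rfl
    have hc : ∀ k : ℕ, Computable (fun _ : (List Bool × List Tup) × ((Bool × ℕ) × Tup) => k) :=
      fun k => Computable.const k
    unfold stepb
    refine Computable.pair ?_ (Computable.succ.comp h5)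
    refine c_and.comp hok (c_and.comp ?_ ?_)
    · refine c_and.comp (c_le.comp hlo h1) ?_
      refine c_and.comp (c_lt.comp h1 h2) ?_
      refine c_and.comp (c_lt.comp h2 h3) ?_
      refine c_and.comp (c_lt.comp h3 h4) ?_
      refine c_and.comp (c_le.comp h4 h5) ?_
      exact c_le.comp h5 hL
    · refine c_and.comp (c_le.comp (c_mul.comp (hc (a + 2)) h1) (hSS h1 h2)) ?_
      refine c_and.comp (c_le.comp (hSS h2 h2) (c_mul.comp (hc a) h2)) ?_
      refine c_and.comp (c_lt.comp (c_mul.comp (hc B) h2) h3) ?_
      refine c_and.comp (c_le.comp (hSS h3 h3) (c_mul.comp (hc a) h3)) ?_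
      exact c_le.comp (c_mul.comp (hc (a + 2)) h4) (hSS h4 h5)
  have := list_foldl (f := fun p : List Bool × List Tup => p.2)
    (g := fun _ => ((true, 0) : Bool × ℕ))
    (h := fun p q => stepb a B (SS sh G (ext p.1)) (p.1.length / 3) q.1 q.2)
    Computable.snd (Computable.const _) hh
  exact this

/-- the witness condition only looks at sums with indices below the bound -/
theorem Wit_congr {a B : ℕ} {S S' : ℕ → ℕ → ℕ} {L : ℕ}
    (h : ∀ w ≤ L, ∀ s ≤ L, S w s = S' w s) :
    ∀ (w : List Tup) (lo : ℕ), Wit a B S lo L w → Wit a B S' lo L w := by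
  intro w
  induction w with
  | nil => intro lo _; trivial
  | cons t w ih =>
    intro lo hw
    obtain ⟨l, m, m', n, r⟩ := t
    obtain ⟨⟨h1, h2, h3, h4, h5, h6⟩, ⟨g1, g2, g3, g4, g5⟩, h7⟩ := hw
    refine ⟨⟨h1, h2, h3, h4, h5, h6⟩, ⟨?_, ?_, g3, ?_, ?_⟩, ih _ h7⟩
    · rw [← h l (by omega) m (by omega)]; exact g1
    · rw [← h m (by omega) m (by omega)]; exact g2
    · rw [← h m' (by omega) m' (by omega)]; exact g4
    · rw [← h n (by omega) r (by omega)]; exact g5

theorem SS_congr {G : ℕ → (ℕ → Bool) → ℕ}
    (hdep : ∀ s y y', (∀ i < 2 * s + 1, y i = y' i) → G s y = G s y') {y y' : ℕ → Bool} {L : ℕ}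
    (h : ∀ i < 3 * L, y i = y' i) : ∀ w ≤ L, ∀ s ≤ L, SS sh G y w s = SS sh G y' w s := by
  intro w hw s hs
  unfold SS
  refine Finset.sum_congr rfl fun i hi => ?_
  have hi := Finset.mem_range.1 hi
  refine hdep s _ _ fun k hk => ?_
  rw [sh_iter, sh_iter]
  exact h _ (by omega)

/-- the oscillation sets are uniformly effectively open -/
theorem exists_test {G : ℕ → (ℕ → Bool) → ℕ}
    (hdep : ∀ s y y', (∀ i < 2 * s + 1, y i = y' i) → G s y = G s y')
    (hG : Computable (fun p : ℕ × List Bool => G p.1 (ext p.2))) (a B : ℕ) (f : ℕ → ℕ)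
    (hf : Computable f) :
    ∃ E : ℕ × List Bool → Prop, REPred E ∧
      ∀ N ω, ω ∈ WitAll sh G a B (f N) ↔ ∃ x, E (N, x) ∧ pre ω x.length = x := by
  set dec : ℕ → List Tup := fun k => (Encodable.decode k : Option (List Tup)).getD [] with hdec
  have hdecc : Computable dec :=
    Computable.option_getD Computable.decode (Computable.const [])
  refine ⟨fun p => ∃ k : ℕ, (decide ((dec k).length = f p.1) &&
    ((dec k).foldl (stepb a B (SS sh G (ext p.2)) (p.2.length / 3)) (true, 0)).1) = true, ?_, ?_⟩
  · refine re_of_exists _ ?_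
    have h3 : Computable (fun q : (ℕ × List Bool) × ℕ =>
        ((q.1.2, dec q.2) : List Bool × List Tup)) :=
      (Computable.snd.comp Computable.fst).pair (hdecc.comp Computable.snd)
    refine c_and.comp (c_eq.comp (Computable.list_length.comp (hdecc.comp Computable.snd))
      (hf.comp (Computable.fst.comp Computable.fst))) ?_
    exact comp_of (comp_chk hG a B) h3 fun _ => rfl
  · intro N ω
    constructor
    · rintro ⟨w, hwl, L, hw⟩
      refine ⟨pre ω (3 * L), ⟨Encodable.encode w, ?_⟩, by rw [pre_length]⟩
      have hd : dec (Encodable.encode w) = w := by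
        simp only [hdec]
        rw [Encodable.encodek]
        rfl
      rw [hd]
      simp only [Bool.and_eq_true, decide_eq_true_eq]
      refine ⟨hwl, ?_⟩
      rw [stepb_spec]
      refine ⟨rfl, ?_⟩
      have hL : (pre ω (3 * L)).length / 3 = L := by rw [pre_length]; omega
      rw [hL]
      refine Wit_congr ?_ w 0 hw
      exact SS_congr hdep fun i hi => (ext_pre hi).symm
    · rintro ⟨x, ⟨k, hk⟩, hx⟩
      simp only [Bool.and_eq_true, decide_eq_true_eq] at hk
      obtain ⟨hwl, hchk⟩ := hk
      rw [stepb_spec] at hchk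
      refine ⟨dec k, hwl, x.length / 3, ?_⟩
      refine Wit_congr ?_ (dec k) 0 hchk.2
      exact SS_congr hdep fun i hi => ext_of_cyl hx (by omega)

/-- functions of finitely many coordinates are measurable -/
theorem meas_of_dep {g : (ℕ → Bool) → ℕ} {n : ℕ} (h : ∀ y y', (∀ i < n, y i = y' i) → g y = g y') :
    Measurable g := by
  have h1 : Measurable (fun (y : ℕ → Bool) (i : Fin n) => y i) :=
    measurable_pi_lambda _ fun i => measurable_pi_apply _
  have h2 : Measurable (fun z : Fin n → Bool =>
      g (fun i => if hi : i < n then z ⟨i, hi⟩ else false)) := measurable_of_finite _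
  have h3 := h2.comp h1
  convert h3 using 1
  funext y
  refine h _ _ fun i hi => ?_
  simp [hi]

end Pool.Agent.Helper396
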