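import Mathlib

/-!
Time-varying upcrossing functional for a measure preserving map: combinatorial part and the
resulting measure inequality.
-/

set_option autoImplicit false

namespace Pool.Agent.Helper396

open MeasureTheory Filter
open scoped ENNReal

/-- chains `lo ≤ p₁ < q₁ < p₂ < q₂ < ⋯ ≤ L` -/
def Chain : ℕ → ℕ → List (ℕ × ℕ) → Prop
  | _, _, [] => True
  | lo, L, (p, q) :: c => lo ≤ p ∧ p < q ∧ q ≤ L ∧ Chain (q + 1) L c

/-- profit of one pair -/
def phi (a : ℕ) (S : ℕ → ℕ → ℕ) (p q : ℕ) : ℤ :=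
  ((a : ℤ) + 1) * q - ((a : ℤ) + 2) * p - ((S q q : ℤ) - S p q)

/-- profit of a chain -/
def Phi (a : ℕ) (S : ℕ → ℕ → ℕ) : List (ℕ × ℕ) → ℤ
  | [] => 0
  | (p, q) :: c => phi a S p q + Phi a S c

/-- witness of many oscillations -/
def Wit (a B : ℕ) (S : ℕ → ℕ → ℕ) : ℕ → ℕ → List (ℕ × ℕ × ℕ × ℕ × ℕ) → Prop
  | _, _, [] => True
  | lo, L, (l, m, m', n, r) :: w =>
      (lo ≤ l ∧ l < m ∧ m < m' ∧ m' < n ∧ n ≤ r ∧ r ≤ L) ∧
      ((a + 2) * l ≤ S l m ∧ S m m ≤ a * m ∧ B * m < m' ∧ S m' m' ≤ a * m' ∧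
        (a + 2) * n ≤ S n r) ∧
      Wit a B S (r + 1) L w

/-- the partial sums that come from a monotone bounded family -/
structure Nice (B : ℕ) (S : ℕ → ℕ → ℕ) : Prop where
  incr : ∀ p q s s', p ≤ q → s ≤ s' → (S q s : ℤ) - S p s ≤ (S q s' : ℤ) - S p s'
  monw : ∀ p q s, p ≤ q → S p s ≤ S q s
  bd : ∀ p s, S p s ≤ B * p

theorem Nice.mons {B : ℕ} {S : ℕ → ℕ → ℕ} (h : Nice B S) (w s s' : ℕ) (hs : s ≤ s') :
    S w s ≤ S w s' := by
  have h1 := h.incr 0 w s s' (Nat.zero_le _) hs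
  have h2 := h.bd 0 s
  have h3 := h.bd 0 s'
  simp at h2 h3
  rw [h2, h3] at h1
  omega

theorem Chain.weaken {L : ℕ} {c : List (ℕ × ℕ)} {lo lo' : ℕ} (h : Chain lo L c) (hl : lo' ≤ lo) :
    Chain lo' L c := by
  cases c with
  | nil => trivial
  | cons pq c =>
    obtain ⟨p, q⟩ := pq
    obtain ⟨h1, h2, h3, h4⟩ := h
    exact ⟨hl.trans h1, h2, h3, h4⟩

theorem Wit.weaken {a B L : ℕ} {S : ℕ → ℕ → ℕ} {w : List (ℕ × ℕ × ℕ × ℕ × ℕ)} {lo lo' : ℕ}
    (h : Wit a B S lo L w) (hl : lo' ≤ lo) : Wit a B S lo' L w := by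
  cases w with
  | nil => trivial
  | cons t w =>
    obtain ⟨l, m, m', n, r⟩ := t
    obtain ⟨⟨h1, h2⟩, h3, h4⟩ := h
    exact ⟨⟨hl.trans h1, h2⟩, h3, h4⟩

theorem Wit.mono_L {a B : ℕ} {S : ℕ → ℕ → ℕ} {w : List (ℕ × ℕ × ℕ × ℕ × ℕ)} :
    ∀ {lo L L' : ℕ}, Wit a B S lo L w → L ≤ L' → Wit a B S lo L' w := by
  induction w with
  | nil => intros; trivial
  | cons t w ih =>
    intro lo L L' h hL
    obtain ⟨l, m, m', n, r⟩ := t
    obtain ⟨⟨h1, h2, h3, h4, h5, h6⟩, h7, h8⟩ := h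
    exact ⟨⟨h1, h2, h3, h4, h5, h6.trans hL⟩, h7, ih h8 hL⟩

theorem Wit.tail_len {a B : ℕ} {S : ℕ → ℕ → ℕ} :
    ∀ {w : List (ℕ × ℕ × ℕ × ℕ × ℕ)} {lo L K : ℕ}, Wit a B S lo L w → K ≤ w.length →
      Wit a B S lo L (w.take K) := by
  intro w
  induction w with
  | nil => intro lo L K h hK; simpa using h
  | cons t w ih =>
    intro lo L K h hK
    cases K with
    | zero => trivial
    | succ K =>
      obtain ⟨l, m, m', n, r⟩ := t
      obtain ⟨h1, h2, h3⟩ := h
      exact ⟨h1, h2, ih h3 (by simpa using hK)⟩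

/-- a chain shorter than a witness can be improved -/
theorem improve {a B L : ℕ} {S : ℕ → ℕ → ℕ} (hS : Nice B S) :
    ∀ (c : List (ℕ × ℕ)) (lo : ℕ) (w : List (ℕ × ℕ × ℕ × ℕ × ℕ)), Chain lo L c →
      Wit a B S lo L w → c.length < w.length →
      ∃ c', Chain lo L c' ∧ Phi a S c < Phi a S c' := by
  intro c
  induction c with
  | nil =>
    intro lo w _ hw hlen
    cases w with
    | nil => simp at hlen
    | cons t w =>
      obtain ⟨l, m, m', n, r⟩ := t
      obtain ⟨⟨h1, h2, h3, h4, h5, h6⟩, ⟨g1, g2, g3, g4, g5⟩, h7⟩ := hw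
      refine ⟨[(l, m)], ⟨h1, h2, by omega, trivial⟩, ?_⟩
      simp only [Phi, phi]
      have e1 : ((a : ℤ) + 2) * l ≤ S l m := by exact_mod_cast g1
      have e2 : (S m m : ℤ) ≤ a * m := by exact_mod_cast g2
      have e3 : (0 : ℤ) < m := by omega
      nlinarith
  | cons pq c ih =>
    intro lo w hc hw hlen
    obtain ⟨p, q⟩ := pq
    obtain ⟨c1, c2, c3, c4⟩ := hc
    cases w with
    | nil => simp at hlen
    | cons t w =>
      obtain ⟨l, m, m', n, r⟩ := t
      obtain ⟨⟨h1, h2, h3, h4, h5, h6⟩, ⟨g1, g2, g3, g4, g5⟩, h7⟩ := hw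
      have e1 : ((a : ℤ) + 2) * l ≤ S l m := by exact_mod_cast g1
      have e2 : (S m m : ℤ) ≤ a * m := by exact_mod_cast g2
      have e3 : (0 : ℤ) < m := by omega
      by_cases hmp : m < p
      · refine ⟨(l, m) :: (p, q) :: c, ⟨h1, h2, by omega, ⟨hmp, c2, c3, c4⟩⟩, ?_⟩
        simp only [Phi, phi]
        nlinarith
      · by_cases hrq : r < q
        · refine ⟨(p, m') :: (n, q) :: c,
            ⟨c1, by omega, by omega, ⟨by omega, by omega, c3, c4⟩⟩, ?_⟩
          simp only [Phi, phi]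
          have f1 : (S m' m' : ℤ) ≤ a * m' := by exact_mod_cast g4
          have f2 : ((a : ℤ) + 2) * n ≤ S n r := by exact_mod_cast g5
          have f3 : (S n r : ℤ) ≤ S n q := by exact_mod_cast hS.mons n r q hrq.le
          have f4 : (S p q : ℤ) ≤ B * p := by exact_mod_cast hS.bd p q
          have f5 : (B : ℤ) * m < m' := by exact_mod_cast g3
          have f6 : (p : ℤ) ≤ m := by omega
          have f7 : (B : ℤ) * p ≤ B * m := mul_le_mul_of_nonneg_left f6 (by positivity)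
          have f8 : (0 : ℤ) ≤ S p m' := by positivity
          nlinarith
        · obtain ⟨c', hc', hlt⟩ := ih (q + 1) w c4 (h7.weaken (by omega)) (by simpa using hlen)
          refine ⟨(p, q) :: c', ⟨c1, c2, c3, hc'⟩, ?_⟩
          simp only [Phi]
          linarith

/-- shifting a chain away from the origin -/
theorem shift_ge {a B L : ℕ} {S S' : ℕ → ℕ → ℕ} (hS : Nice B S)
    (hS' : ∀ w s, S' w s + S 1 s = S (w + 1) s) :
    ∀ (c : List (ℕ × ℕ)) (lo : ℕ), Chain (lo + 1) L c →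
      ∃ c', Chain lo L c' ∧ Phi a S c + c.length ≤ Phi a S' c' := by
  intro c
  induction c with
  | nil => intro lo _; exact ⟨[], trivial, by simp [Phi]⟩
  | cons pq c ih =>
    intro lo hc
    obtain ⟨p, q⟩ := pq
    obtain ⟨c1, c2, c3, c4⟩ := hc
    obtain ⟨p, rfl⟩ : ∃ p', p = p' + 1 := ⟨p - 1, by omega⟩
    obtain ⟨q, rfl⟩ : ∃ q', q = q' + 1 := ⟨q - 1, by omega⟩
    obtain ⟨c', hc', hle⟩ := ih (q + 1) c4
    refine ⟨(p, q) :: c', ⟨by omega, by omega, by omega, hc'⟩, ?_⟩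
    simp only [Phi, phi, List.length_cons]
    have e1 : (S' q q : ℤ) + S 1 q = S (q + 1) q := by exact_mod_cast hS' q q
    have e2 : (S' p q : ℤ) + S 1 q = S (p + 1) q := by exact_mod_cast hS' p q
    have e3 := hS.incr (p + 1) (q + 1) q (q + 1) (by omega) (by omega)
    push_cast at hle ⊢
    linarith

/-- shifting any chain -/
theorem shift_all {a B L : ℕ} {S S' : ℕ → ℕ → ℕ} (hS : Nice B S)
    (hS' : ∀ w s, S' w s + S 1 s = S (w + 1) s) (c : List (ℕ × ℕ)) (hc : Chain 0 L c) :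
    ∃ c', Chain 0 L c' ∧ Phi a S c + c.length ≤ Phi a S' c' + (a + 2) := by
  cases c with
  | nil => exact ⟨[], trivial, by simp [Phi]; positivity⟩
  | cons pq c =>
    obtain ⟨p, q⟩ := pq
    by_cases hp : p = 0
    · subst hp
      obtain ⟨c1, c2, c3, c4⟩ := hc
      obtain ⟨q, rfl⟩ : ∃ q', q = q' + 1 := ⟨q - 1, by omega⟩
      obtain ⟨c', hc', hle⟩ := shift_ge (a := a) hS hS' c (q + 1) c4
      have z0 : S 0 (q + 1) = 0 := by have := hS.bd 0 (q + 1); simpa using this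
      by_cases hq : q = 0
      · subst hq
        refine ⟨c', hc'.weaken (by omega), ?_⟩
        simp only [Phi, phi, List.length_cons, z0]
        have e0 : (0 : ℤ) ≤ S (0 + 1) (0 + 1) := by positivity
        push_cast at hle ⊢
        linarith
      · refine ⟨(0, q) :: c', ⟨le_rfl, by omega, by omega, hc'⟩, ?_⟩
        simp only [Phi, phi, List.length_cons, z0]
        have e1 : (S' q q : ℤ) + S 1 q = S (q + 1) q := by exact_mod_cast hS' q q
        have e2 : (S' 0 q : ℤ) + S 1 q = S (0 + 1) q := by exact_mod_cast hS' 0 q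
        have e3 := hS.incr 0 (q + 1) q (q + 1) (by omega) (by omega)
        have z1 : S 0 q = 0 := by have := hS.bd 0 q; simpa using this
        rw [z0, z1] at e3
        have e4 : (0 : ℤ) ≤ S 1 q := by positivity
        simp only [zero_add] at e2
        push_cast at hle e3 ⊢
        linarith
    · obtain ⟨c', hc', hle⟩ := shift_ge (a := a) hS hS' ((p, q) :: c) 0 (by
        obtain ⟨c1, c2, c3, c4⟩ := hc
        exact ⟨by omega, c2, c3, c4⟩)
      refine ⟨c', hc', ?_⟩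
      have : (0 : ℤ) ≤ (a : ℤ) + 2 := by positivity
      linarith

theorem chain_len {L : ℕ} : ∀ (c : List (ℕ × ℕ)) (lo : ℕ), Chain lo L c → c ≠ [] →
    c.length + lo ≤ L := by
  intro c
  induction c with
  | nil => intro lo _ h; exact absurd rfl h
  | cons pq c ih =>
    intro lo h _
    obtain ⟨p, q⟩ := pq
    obtain ⟨c1, c2, c3, c4⟩ := h
    by_cases hc : c = []
    · subst hc; simp; omega
    · have := ih _ c4 hc
      simp
      omega

theorem Phi_le {a B L : ℕ} {S : ℕ → ℕ → ℕ} (hS : Nice B S) :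
    ∀ (c : List (ℕ × ℕ)) (lo : ℕ), Chain lo L c → Phi a S c ≤ ((a : ℤ) + 1) * L * c.length := by
  intro c
  induction c with
  | nil => intro lo _; simp [Phi]
  | cons pq c ih =>
    intro lo h
    obtain ⟨p, q⟩ := pq
    obtain ⟨c1, c2, c3, c4⟩ := h
    have h1 := ih _ c4
    simp only [Phi, phi, List.length_cons]
    have e1 : (S p q : ℤ) ≤ S q q := by exact_mod_cast hS.monw p q q c2.le
    have e2 : (q : ℤ) ≤ L := by exact_mod_cast c3
    have e3 : ((a : ℤ) + 1) * q ≤ ((a : ℤ) + 1) * L :=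
      mul_le_mul_of_nonneg_left e2 (by positivity)
    have e4 : (0 : ℤ) ≤ ((a : ℤ) + 2) * p := by positivity
    push_cast
    nlinarith

theorem Phi_le' {a B L : ℕ} {S : ℕ → ℕ → ℕ} (hS : Nice B S) (c : List (ℕ × ℕ))
    (h : Chain 0 L c) : Phi a S c ≤ (((a + 1) * L * L : ℕ) : ℤ) := by
  by_cases hc : c = []
  · subst hc; simp only [Phi]; positivity
  · have h1 := Phi_le (a := a) hS c 0 h
    have h2 := chain_len c 0 h hc
    have h3 : (c.length : ℤ) ≤ L := by omega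
    have h4 : ((a : ℤ) + 1) * L * c.length ≤ ((a : ℤ) + 1) * L * L :=
      mul_le_mul_of_nonneg_left h3 (by positivity)
    push_cast
    linarith

open Classical in
/-- the maximal profit -/
noncomputable def Yf (a L : ℕ) (S : ℕ → ℕ → ℕ) : ℕ :=
  Nat.findGreatest (fun v => ∃ c, Chain 0 L c ∧ (v : ℤ) ≤ Phi a S c) ((a + 1) * L * L)

theorem Yf_spec {a B L : ℕ} {S : ℕ → ℕ → ℕ} (hS : Nice B S) :
    (∃ c, Chain 0 L c ∧ Phi a S c = Yf a L S) ∧ ∀ c, Chain 0 L c → Phi a S c ≤ Yf a L S := by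
  classical
  have key : ∀ c, Chain 0 L c → Phi a S c ≤ Yf a L S := by
    intro c hc
    by_cases h0 : Phi a S c ≤ 0
    · exact h0.trans (by positivity)
    · push Not at h0
      obtain ⟨v, hv⟩ := Int.eq_ofNat_of_zero_le h0.le
      have hb : v ≤ (a + 1) * L * L := by
        have := Phi_le' (a := a) hS c hc
        rw [hv] at this
        exact_mod_cast this
      have : v ≤ Yf a L S := by
        unfold Yf
        exact Nat.le_findGreatest hb ⟨c, hc, hv.ge⟩
      rw [hv]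
      exact_mod_cast this
  refine ⟨?_, key⟩
  have h0 : ∃ c, Chain 0 L c ∧ ((Yf a L S : ℕ) : ℤ) ≤ Phi a S c := by
    unfold Yf
    exact Nat.findGreatest_spec (P := fun v : ℕ => ∃ c, Chain 0 L c ∧ (v : ℤ) ≤ Phi a S c)
      (m := 0) (Nat.zero_le _) ⟨[], trivial, by simp [Phi]⟩
  obtain ⟨c, hc, hle⟩ := h0
  exact ⟨c, hc, le_antisymm (key c hc) hle⟩

theorem Yf_le (a L : ℕ) (S : ℕ → ℕ → ℕ) : Yf a L S ≤ (a + 1) * L * L := by
  classical
  unfold Yf
  exact Nat.findGreatest_le _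

/-- the shift inequality -/
theorem Yf_shift {a B L N : ℕ} {S S' : ℕ → ℕ → ℕ} (hS : Nice B S) (hS2 : Nice B S')
    (hS' : ∀ w s, S' w s + S 1 s = S (w + 1) s)
    (hw : ∃ w, w.length = N ∧ Wit a B S 0 L w) :
    Yf a L S + N ≤ Yf a L S' + (a + 2) := by
  obtain ⟨⟨c, hc, hcY⟩, hmax⟩ := Yf_spec (a := a) (L := L) hS
  obtain ⟨w, hwl, hw⟩ := hw
  have hlen : N ≤ c.length := by
    by_contra hlt
    push Not at hlt
    obtain ⟨c', hc', h'⟩ := improve hS c 0 w hc hw (by omega)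
    have := hmax c' hc'
    omega
  obtain ⟨c', hc', h'⟩ := shift_all (a := a) hS hS' c hc
  have h2 := (Yf_spec (a := a) (L := L) hS2).2 c' hc'
  omega

theorem Yf_shift0 {a B L : ℕ} {S S' : ℕ → ℕ → ℕ} (hS : Nice B S) (hS2 : Nice B S')
    (hS' : ∀ w s, S' w s + S 1 s = S (w + 1) s) :
    Yf a L S ≤ Yf a L S' + (a + 2) := by
  have := Yf_shift (N := 0) (a := a) (L := L) hS hS2 hS' ⟨[], rfl, trivial⟩
  simpa using this

section measure

variable {Ω : Type*}

/-- partial sums along the orbit with time stamp `s` -/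
def SS (T : Ω → Ω) (G : ℕ → Ω → ℕ) (x : Ω) (w s : ℕ) : ℕ :=
  ∑ i ∈ Finset.range w, G s (T^[i] x)

theorem SS_nice (T : Ω → Ω) (G : ℕ → Ω → ℕ) (hmono : ∀ x, Monotone fun s => G s x) (B : ℕ)
    (hB : ∀ s x, G s x ≤ B) (x : Ω) : Nice B (SS T G x) := by
  refine ⟨?_, ?_, ?_⟩
  · intro p q s s' hpq hs
    have key : ∀ s, (SS T G x q s : ℤ) - SS T G x p s = ∑ i ∈ Finset.Ico p q, (G s (T^[i] x) : ℤ) := by
      intro s
      unfold SS
      rw [Finset.sum_Ico_eq_sub _ hpq]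
      push_cast
      rfl
    rw [key, key]
    refine Finset.sum_le_sum fun i _ => ?_
    exact_mod_cast hmono _ hs
  · intro p q s hpq
    unfold SS
    exact Finset.sum_le_sum_of_subset (Finset.range_mono hpq)
  · intro p s
    unfold SS
    calc ∑ i ∈ Finset.range p, G s (T^[i] x) ≤ ∑ i ∈ Finset.range p, B :=
          Finset.sum_le_sum fun i _ => hB _ _
      _ = B * p := by simp [mul_comm]

theorem SS_shift (T : Ω → Ω) (G : ℕ → Ω → ℕ) (x : Ω) (w s : ℕ) :
    SS T G (T x) w s + SS T G x 1 s = SS T G x (w + 1) s := by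
  unfold SS
  rw [Finset.sum_range_succ' _ w]
  simp

variable [MeasurableSpace Ω]

theorem SS_meas {T : Ω → Ω} (hT : Measurable T) {G : ℕ → Ω → ℕ} (hG : ∀ s, Measurable (G s))
    (w s : ℕ) : Measurable fun x => SS T G x w s := by
  unfold SS
  exact Finset.measurable_sum _ fun i _ => (hG s).comp (hT.iterate i)

theorem phi_meas {T : Ω → Ω} (hT : Measurable T) {G : ℕ → Ω → ℕ} (hG : ∀ s, Measurable (G s))
    (a p q : ℕ) : Measurable fun x => phi a (SS T G x) p q := by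
  unfold phi
  have h1 : Measurable fun x => ((SS T G x q q : ℕ) : ℤ) :=
    (measurable_from_top (f := fun n : ℕ => (n : ℤ))).comp (SS_meas hT hG q q)
  have h2 : Measurable fun x => ((SS T G x p q : ℕ) : ℤ) :=
    (measurable_from_top (f := fun n : ℕ => (n : ℤ))).comp (SS_meas hT hG p q)
  exact measurable_const.sub (h1.sub h2)

theorem Phi_meas {T : Ω → Ω} (hT : Measurable T) {G : ℕ → Ω → ℕ} (hG : ∀ s, Measurable (G s))
    (a : ℕ) : ∀ c, Measurable fun x => Phi a (SS T G x) c := by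
  intro c
  induction c with
  | nil => exact measurable_const
  | cons pq c ih =>
    obtain ⟨p, q⟩ := pq
    exact (phi_meas hT hG a p q).add ih

theorem Yf_meas {T : Ω → Ω} (hT : Measurable T) {G : ℕ → Ω → ℕ} (hG : ∀ s, Measurable (G s))
    (a L : ℕ) : Measurable fun x => Yf a L (SS T G x) := by
  classical
  unfold Yf
  refine measurable_findGreatest ?_
  intro k _
  have : {x | ∃ c, Chain 0 L c ∧ (k : ℤ) ≤ Phi a (SS T G x) c}
      = ⋃ c : List (ℕ × ℕ), {x | Chain 0 L c ∧ (k : ℤ) ≤ Phi a (SS T G x) c} := by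
    ext x; simp
  rw [this]
  refine MeasurableSet.iUnion fun c => ?_
  by_cases hc : Chain 0 L c
  · simp only [hc, true_and]
    exact measurableSet_le measurable_const (Phi_meas hT hG a c)
  · simp [hc]

/-- set of points with `N` oscillations before `L` -/
def WitSet (T : Ω → Ω) (G : ℕ → Ω → ℕ) (a B N L : ℕ) : Set Ω :=
  {x | ∃ w, w.length = N ∧ Wit a B (SS T G x) 0 L w}

theorem Wit_meas {T : Ω → Ω} (hT : Measurable T) {G : ℕ → Ω → ℕ} (hG : ∀ s, Measurable (G s))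
    (a B : ℕ) : ∀ (w : List (ℕ × ℕ × ℕ × ℕ × ℕ)) (lo L : ℕ),
      MeasurableSet {x | Wit a B (SS T G x) lo L w} := by
  intro w
  induction w with
  | nil => intro lo L; simp [Wit]
  | cons t w ih =>
    intro lo L
    obtain ⟨l, m, m', n, r⟩ := t
    simp only [Wit]
    have hS := SS_meas hT hG
    refine (MeasurableSet.const _).inter (MeasurableSet.inter ?_ (ih _ _))
    refine (measurableSet_le measurable_const (hS l m)).inter ?_
    refine (measurableSet_le (hS m m) measurable_const).inter ?_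
    refine (MeasurableSet.const _).inter ?_
    refine (measurableSet_le (hS m' m') measurable_const).inter ?_
    exact measurableSet_le measurable_const (hS n r)

theorem WitSet_meas {T : Ω → Ω} (hT : Measurable T) {G : ℕ → Ω → ℕ} (hG : ∀ s, Measurable (G s))
    (a B N L : ℕ) : MeasurableSet (WitSet T G a B N L) := by
  have : WitSet T G a B N L
      = ⋃ w : List (ℕ × ℕ × ℕ × ℕ × ℕ), {x | w.length = N ∧ Wit a B (SS T G x) 0 L w} := by
    ext x; simp [WitSet]
  rw [this]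
  refine MeasurableSet.iUnion fun w => ?_
  exact (MeasurableSet.const _).inter (Wit_meas hT hG a B w 0 L)

theorem measure_WitSet (μ : Measure Ω) [IsProbabilityMeasure μ] {T : Ω → Ω}
    (hT : MeasurePreserving T μ μ) {G : ℕ → Ω → ℕ} (hG : ∀ s, Measurable (G s))
    (hmono : ∀ x, Monotone fun s => G s x) {B : ℕ} (hB : ∀ s x, G s x ≤ B) (a N L : ℕ) :
    (N : ℝ≥0∞) * μ (WitSet T G a B N L) ≤ (a : ℝ≥0∞) + 2 := by
  classical
  set Y : Ω → ℝ≥0∞ := fun x => (Yf a L (SS T G x) : ℝ≥0∞) with hY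
  have hYm : Measurable Y :=
    (measurable_from_top (f := fun n : ℕ => (n : ℝ≥0∞))).comp (Yf_meas hT.measurable hG a L)
  have hWm := WitSet_meas hT.measurable hG a B N L
  have hfin : ∫⁻ x, Y x ∂μ ≠ ∞ := by
    refine ne_top_of_le_ne_top (b := (((a + 1) * L * L : ℕ) : ℝ≥0∞)) (ENNReal.natCast_ne_top _) ?_
    calc ∫⁻ x, Y x ∂μ ≤ ∫⁻ _, (((a + 1) * L * L : ℕ) : ℝ≥0∞) ∂μ := by
          refine lintegral_mono fun x => ?_
          have := Yf_le a L (SS T G x)
          simp only [hY]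
          exact_mod_cast this
      _ = _ := by simp
  have hpt : ∀ x, Y x + (WitSet T G a B N L).indicator (fun _ => (N : ℝ≥0∞)) x
      ≤ Y (T x) + ((a : ℝ≥0∞) + 2) := by
    intro x
    have hn := SS_nice T G hmono B hB
    by_cases hx : x ∈ WitSet T G a B N L
    · rw [Set.indicator_of_mem hx]
      have := Yf_shift (hn x) (hn (T x)) (SS_shift T G x) hx
      simp only [hY]
      exact_mod_cast this
    · rw [Set.indicator_of_notMem hx, add_zero]
      have := Yf_shift0 (a := a) (L := L) (hn x) (hn (T x)) (SS_shift T G x)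
      simp only [hY]
      exact_mod_cast this
  have h1 : ∫⁻ x, Y x ∂μ + (N : ℝ≥0∞) * μ (WitSet T G a B N L)
      ≤ ∫⁻ x, Y x ∂μ + ((a : ℝ≥0∞) + 2) := by
    calc ∫⁻ x, Y x ∂μ + (N : ℝ≥0∞) * μ (WitSet T G a B N L)
        = ∫⁻ x, (Y x + (WitSet T G a B N L).indicator (fun _ => (N : ℝ≥0∞)) x) ∂μ := by
          rw [lintegral_add_left hYm, lintegral_indicator_const hWm]
      _ ≤ ∫⁻ x, (Y (T x) + ((a : ℝ≥0∞) + 2)) ∂μ := lintegral_mono hpt
      _ = ∫⁻ x, Y (T x) ∂μ + ((a : ℝ≥0∞) + 2) := by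
          rw [lintegral_add_right _ measurable_const]
          simp
      _ = ∫⁻ x, Y x ∂μ + ((a : ℝ≥0∞) + 2) := by
          rw [hT.lintegral_comp hYm]
  exact (ENNReal.add_le_add_iff_left hfin).1 h1

/-- points with `N` oscillations -/
def WitAll (T : Ω → Ω) (G : ℕ → Ω → ℕ) (a B N : ℕ) : Set Ω :=
  {x | ∃ w, w.length = N ∧ ∃ L, Wit a B (SS T G x) 0 L w}

theorem measure_WitAll (μ : Measure Ω) [IsProbabilityMeasure μ] {T : Ω → Ω}
    (hT : MeasurePreserving T μ μ) {G : ℕ → Ω → ℕ} (hG : ∀ s, Measurable (G s))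
    (hmono : ∀ x, Monotone fun s => G s x) {B : ℕ} (hB : ∀ s x, G s x ≤ B) (a N : ℕ) :
    (N : ℝ≥0∞) * μ (WitAll T G a B N) ≤ (a : ℝ≥0∞) + 2 := by
  have h1 : WitAll T G a B N = ⋃ L, WitSet T G a B N L := by
    ext x
    simp only [WitAll, WitSet, Set.mem_ofPred_eq, Set.mem_iUnion]
    constructor
    · rintro ⟨w, hw, L, h⟩
      exact ⟨L, w, hw, h⟩
    · rintro ⟨L, w, hw, h⟩
      exact ⟨w, hw, L, h⟩
  have h2 : Monotone (WitSet T G a B N) := by
    intro L L' hL x hx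
    obtain ⟨w, hw, h⟩ := hx
    exact ⟨w, hw, h.mono_L hL⟩
  rw [h1, h2.measure_iUnion, ENNReal.mul_iSup]
  exact iSup_le fun L => measure_WitSet μ hT hG hmono hB a N L

omit [MeasurableSpace Ω] in
theorem WitAll_anti (T : Ω → Ω) (G : ℕ → Ω → ℕ) (a B : ℕ) : Antitone (WitAll T G a B) := by
  intro N N' hN x hx
  obtain ⟨w, hw, L, h⟩ := hx
  refine ⟨w.take N, by rw [List.length_take]; omega, L, h.tail_len (by omega)⟩

end measure

/-- if the real-time averages are often low and the final ones often high, all witnesses exist -/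
theorem wit_of_frequently {a B : ℕ} {S : ℕ → ℕ → ℕ} (hS : Nice B S)
    (hlow : ∃ᶠ m in atTop, S m m ≤ a * m) (hhigh : ∃ᶠ n in atTop, ∃ r, (a + 2) * n ≤ S n r) :
    ∀ N lo, ∃ w : List (ℕ × ℕ × ℕ × ℕ × ℕ), w.length = N ∧ ∃ L, Wit a B S lo L w := by
  intro N
  induction N with
  | zero => intro lo; exact ⟨[], rfl, 0, trivial⟩
  | succ N ih =>
    intro lo
    rw [frequently_atTop] at hlow hhigh
    obtain ⟨l, hl, r0, hr0⟩ := hhigh lo
    obtain ⟨m, hm, hmlow⟩ := hlow (max (l + 1) r0)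
    obtain ⟨m', hm', hm'low⟩ := hlow (max (m + 1) (B * m + 1))
    obtain ⟨n, hn, r1, hr1⟩ := hhigh (m' + 1)
    obtain ⟨w, hwl, L, hw⟩ := ih (max n r1 + 1)
    refine ⟨(l, m, m', n, max n r1) :: w, by simp [hwl], max L (max n r1), ?_⟩
    have e1 : l + 1 ≤ m := (le_max_left _ _).trans hm
    have e2 : r0 ≤ m := (le_max_right _ _).trans hm
    have e3 : m + 1 ≤ m' := (le_max_left _ _).trans hm'
    have e4 : B * m + 1 ≤ m' := (le_max_right _ _).trans hm'
    refine ⟨⟨hl, by omega, by omega, by omega, le_max_left _ _, le_max_right _ _⟩,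
      ⟨?_, hmlow, by omega, hm'low, ?_⟩, hw.mono_L (le_max_left _ _)⟩
    · exact hr0.trans (hS.mons _ _ _ e2)
    · exact hr1.trans (hS.mons _ _ _ (le_max_right _ _))

end Pool.Agent.Helper396
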